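import Pool.Agent.H703R3.QP.LightQ

/-!
# All quantum algorithms: quasi-polynomial bounds
-/

set_option autoImplicit false
set_option linter.unusedSectionVars false

namespace Pool.Agent.H703R3.QP

open Finset Pool.Agent.H722R2.AA Pool.Agent.H746R2.AA Pool.Agent.H703R2.AA Pool.Agent.H703R2.AA.Pr
  Pool.Agent.H703R2.AB Pool.Agent.H703R2.AC

variable {κ ι W : Type*} [Fintype κ] [DecidableEq κ] [Fintype ι] [DecidableEq ι] [Fintype W]
variable (P : Pr κ ι W)

/-- The light lemma for the threshold used. -/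
lemma light_num (T : ℕ) (hT : 1 ≤ T) (V : ℝ) (hV : 0 < V) (hV1 : V ≤ 1) (g : List W → ℝ)
    (hg0 : ∀ a, 0 ≤ g a) (hg1 : ∀ a, g a ≤ 1) (P : Pr κ ι W)
    (hl : ∀ t < T, ∀ k, mq P t k
      ≤ Real.exp (-(4900 * Real.log (32 * (T : ℝ) ^ 2 / V) ^ 2))) :
    Cov (P.out T g) (P.out T g) ≤ V / 4 := by
  obtain ⟨N, n, hN, hn, hsmall⟩ := numbers T hT V hV hV1
  have hT1 : (1 : ℝ) ≤ T := by exact_mod_cast hT
  have h := light_q P T hT N hN n hn (V / (32 * (T : ℝ) ^ 2)) _ (by positivity)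
    (by rw [div_le_one (by positivity)]; nlinarith) (Real.exp_pos _).le hl hsmall g hg0 hg1
  refine h.trans (le_of_eq ?_)
  field_simp
  norm_num

/-- Auxiliary inequality. -/
lemma exp_aux (T : ℕ) (hT : 1 ≤ T) (V : ℝ) (hV : 0 < V) (hV1 : V ≤ 1) :
    Real.exp (-Real.log (32 * (T : ℝ) ^ 2 / V) ^ 2) ≤ V / (4 * T) := by
  have hT1 : (1 : ℝ) ≤ T := by exact_mod_cast hT
  set X : ℝ := 32 * (T : ℝ) ^ 2 / V with hX
  have hX0 : 0 < X := by positivity
  have hXe : Real.exp 1 ≤ X := by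
    have h1 : 32 ≤ X := by
      rw [hX, le_div_iff₀ hV]
      nlinarith
    have := Real.exp_one_lt_d9
    linarith
  have hl1 : 1 ≤ Real.log X := (Real.le_log_iff_exp_le hX0).2 hXe
  have h1 : Real.exp (-Real.log X ^ 2) ≤ Real.exp (-Real.log X) :=
    Real.exp_le_exp.2 (by nlinarith)
  refine h1.trans ?_
  rw [Real.exp_neg, Real.exp_log hX0, hX, inv_div]
  refine div_le_div_of_nonneg_left hV.le (by positivity) ?_
  nlinarith

lemma Cov_le_one (T : ℕ) (g : List W → ℝ) (hg0 : ∀ a, 0 ≤ g a) (hg1 : ∀ a, g a ≤ 1) :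
    Cov (P.out T g) (P.out T g) ≤ 1 := by
  have := Cov_self_le (P.out T g) 1 (fun x => by
    rw [abs_of_nonneg (P.out_nonneg T g hg0 x)]; exact P.out_le T g hg1 x)
  linarith

/-- The Aaronson-Ambainis inequality for all processes, with a quasi-polynomial bound. -/
theorem infl (T : ℕ) (hT : 1 ≤ T) (g : List W → ℝ) (hg0 : ∀ a, 0 ≤ g a)
    (hg1 : ∀ a, g a ≤ 1) (hV : 0 < Cov (P.out T g) (P.out T g)) :
    ∃ l, Real.exp (-(10000 * Real.log (32 * (T : ℝ) ^ 2 / Cov (P.out T g) (P.out T g)) ^ 2))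
      ≤ Inf (P.out T g) l := by
  set V := Cov (P.out T g) (P.out T g) with hVdef
  have hV1 : V ≤ 1 := Cov_le_one P T g hg0 hg1
  have hT0 : (0 : ℝ) < T := by exact_mod_cast hT
  obtain ⟨l, hl⟩ := main P (Real.exp (-(4900 * Real.log (32 * (T : ℝ) ^ 2 / V) ^ 2)))
    (Real.exp_pos _) T hT g hg0 hg1 hV
    (fun P' h => light_num T hT V hV hV1 g hg0 hg1 P' h)
  refine ⟨l, le_trans ?_ hl⟩
  rw [← hVdef]
  have h1 := exp_aux T hT V hV hV1
  set q := Real.log (32 * (T : ℝ) ^ 2 / V) ^ 2 with hq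
  have hq0 : 0 ≤ q := sq_nonneg _
  have h2 : Real.exp (-(5000 * q)) ≤ Real.exp (-(4900 * q)) * V / T := by
    have h3 : Real.exp (-(5000 * q)) ≤ Real.exp (-(4900 * q)) * Real.exp (-q) := by
      rw [← Real.exp_add]
      exact Real.exp_le_exp.2 (by linarith)
    have h4 : V / (4 * T) ≤ V / T := div_le_div_of_nonneg_left hV.le hT0 (by linarith)
    have h5 := mul_le_mul_of_nonneg_left (h1.trans h4) (Real.exp_pos (-(4900 * q))).le
    rw [mul_div_assoc]
    linarith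
  have h3 : Real.exp (-(10000 * q)) = Real.exp (-(5000 * q)) ^ 2 := by
    rw [← Real.exp_nat_mul]
    congr 1
    push_cast
    ring
  rw [h3]
  exact pow_le_pow_left₀ (Real.exp_pos _).le h2 2

/-- The bit fixing form for all processes, with a quasi-polynomial bound. -/
theorem bits (T : ℕ) (hT : 1 ≤ T) (g : List W → ℝ) (hg0 : ∀ a, 0 ≤ g a)
    (hg1 : ∀ a, g a ≤ 1) (hV : 0 < Cov (P.out T g) (P.out T g)) :
    ∃ (S : Finset κ) (a : κ → ℤˣ),
      (S.card : ℝ) ≤ Real.exp (5000 * Real.log (32 * (T : ℝ) ^ 2 / Cov (P.out T g) (P.out T g)) ^ 2) ∧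
      Cov (P.out T g) (P.out T g) / 2
        ≤ (Ex (fun x => P.out T g (S.piecewise a x)) - Ex (P.out T g)) ^ 2 := by
  set V := Cov (P.out T g) (P.out T g) with hVdef
  have hV1 : V ≤ 1 := Cov_le_one P T g hg0 hg1
  have hT0 : (0 : ℝ) < T := by exact_mod_cast hT
  obtain ⟨S, a, hS, ha⟩ := fix P (Real.exp (-(4900 * Real.log (32 * (T : ℝ) ^ 2 / V) ^ 2)))
    (Real.exp_pos _) T hT g hg0 hg1 hV
    (fun P' h => light_num T hT V hV hV1 g hg0 hg1 P' h)
  refine ⟨S, a, hS.trans ?_, ha⟩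
  rw [← hVdef]
  have h1 := exp_aux T hT V hV hV1
  set q := Real.log (32 * (T : ℝ) ^ 2 / V) ^ 2 with hq
  have hq0 : 0 ≤ q := sq_nonneg _
  rw [div_le_iff₀ (by positivity)]
  rw [le_div_iff₀ (by positivity)] at h1
  have h2 : Real.exp (5000 * q) * Real.exp (-(4900 * q)) = Real.exp (100 * q) := by
    rw [← Real.exp_add]; congr 1; ring
  have h3 : Real.exp (100 * q) * Real.exp (-q) = Real.exp (99 * q) := by
    rw [← Real.exp_add]; congr 1; ring
  have h4 : 1 ≤ Real.exp (99 * q) := Real.one_le_exp (by positivity)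
  have h5 := mul_le_mul_of_nonneg_left h1 (Real.exp_pos (100 * q)).le
  calc 4 * (T : ℝ) ≤ Real.exp (99 * q) * (4 * T) := le_mul_of_one_le_left (by positivity) h4
    _ = Real.exp (100 * q) * (Real.exp (-q) * (4 * T)) := by rw [← h3]; ring
    _ ≤ Real.exp (100 * q) * V := h5
    _ = _ := by rw [← h2]; ring

end Pool.Agent.H703R3.QP
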