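import Pool.Agent.H703R3.QP.Robust

/-!
# The level one inequality for a query probability
-/

set_option autoImplicit false
set_option linter.unusedSectionVars false

namespace Pool.Agent.H703R3.QP

open Finset Pool.Agent.H722R2.AA Pool.Agent.H746R2.AA Pool.Agent.H703R2.AA Pool.Agent.H703R2.AA.Pr
  Pool.Agent.H703R2.AB Pool.Agent.H703R2.AC

section Cube

variable {κ : Type*} [Fintype κ] [DecidableEq κ]

lemma log_one_add_ge (y : ℝ) (hy : |y| ≤ 1 / 2) : y - 2 * y ^ 2 ≤ Real.log (1 + y) := by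
  rw [abs_le] at hy
  have h0 : 0 < 1 + y := by linarith
  have h1 := Real.one_sub_inv_le_log_of_pos h0
  refine le_trans ?_ h1
  have e : 1 - (1 + y)⁻¹ - (y - 2 * y ^ 2) = y ^ 2 * (1 + 2 * y) / (1 + y) := by
    field_simp
    ring
  have : 0 ≤ y ^ 2 * (1 + 2 * y) / (1 + y) := by
    have : 0 ≤ 1 + 2 * y := by linarith
    positivity
  linarith

lemma abs_mul_sg (a : ℝ) (x : κ → ℤˣ) (j : κ) : |a * sg x j| = |a| := by
  rcases sg_cases x j with h | h <;> rw [h] <;> simp

lemma Lb_pos (b : κ → ℝ) (hb : ∀ j, |b j| ≤ 1 / 2) (x : κ → ℤˣ) : 0 < Lb b x := by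
  unfold Lb
  refine Finset.prod_pos fun j _ => ?_
  have := abs_mul_sg (b j) x j
  have h2 := hb j
  rw [← this, abs_le] at h2
  linarith

lemma lin_le (b : κ → ℝ) (hb : ∀ j, |b j| ≤ 1 / 2) (A : ℝ) (hA : 0 < A) (x : κ → ℤˣ) :
    ∑ j, b j * sg x j ≤ 2 * ∑ j, b j ^ 2 + Real.log A + Lb b x / A := by
  have hL := Lb_pos b hb x
  have h1 : ∑ j, (b j * sg x j - 2 * b j ^ 2) ≤ Real.log (Lb b x) := by
    unfold Lb
    rw [Real.log_prod]
    · refine Finset.sum_le_sum fun j _ => ?_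
      have h2 := log_one_add_ge (b j * sg x j) (by rw [abs_mul_sg]; exact hb j)
      have h3 : (b j * sg x j) ^ 2 = b j ^ 2 := by
        rw [mul_pow, sq (sg x j), sg_sq, mul_one]
      rw [h3] at h2
      exact h2
    · intro j _
      have := abs_mul_sg (b j) x j
      have h2 := hb j
      rw [← this, abs_le] at h2
      linarith
  have h4 : Real.log (Lb b x / A) ≤ Lb b x / A - 1 := Real.log_le_sub_one_of_pos (by positivity)
  rw [Real.log_div hL.ne' hA.ne'] at h4
  rw [Finset.sum_sub_distrib, ← Finset.mul_sum] at h1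
  linarith

lemma abs_lin_le (b : κ → ℝ) (hb : ∀ j, |b j| ≤ 1 / 2) (A : ℝ) (hA : 0 < A) (x : κ → ℤˣ) :
    |∑ j, b j * sg x j|
      ≤ 2 * ∑ j, b j ^ 2 + Real.log A + (Lb b x + Lb (fun j => -b j) x) / A := by
  have h1 := lin_le b hb A hA x
  have hb' : ∀ j, |(fun j => -b j) j| ≤ 1 / 2 := fun j => by simpa using hb j
  have h2 := lin_le (fun j => -b j) hb' A hA x
  have h3 : 0 ≤ Lb b x / A := div_nonneg (Lb_pos b hb x).le hA.le
  have h4 : 0 ≤ Lb (fun j => -b j) x / A := div_nonneg (Lb_pos _ hb' x).le hA.le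
  have e : ∑ j, (fun j => -b j) j * sg x j = -∑ j, b j * sg x j := by
    rw [← Finset.sum_neg_distrib]
    exact Finset.sum_congr rfl fun j _ => by ring
  have e2 : ∑ j, (fun j => -b j) j ^ 2 = ∑ j, b j ^ 2 :=
    Finset.sum_congr rfl fun j _ => by ring
  rw [e, e2] at h2
  rw [add_div, abs_le]
  constructor <;> linarith

lemma Ex_Lb (b : κ → ℝ) : Ex (Lb b) = 1 := by
  have e : Lb b = fun x : κ → ℤˣ => ∏ j, (fun (j : κ) (u : ℤˣ) => 1 + b j * ((u : ℤ) : ℝ)) j (x j) := rfl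
  rw [e, Ex_prod_cube (fun (j : κ) (u : ℤˣ) => 1 + b j * ((u : ℤ) : ℝ))]
  refine Finset.prod_eq_one fun j _ => ?_
  push_cast
  ring

/-- The level one coefficients. -/
noncomputable def G1 (F : (κ → ℤˣ) → ℝ) (j : κ) : ℝ := Ex (fun x => sg x j * F x)

lemma abs_G1_le (F : (κ → ℤˣ) → ℝ) (h0 : ∀ x, 0 ≤ F x) (j : κ) : |G1 F j| ≤ Ex F := by
  refine (abs_Ex_le _).trans (Ex_mono fun x => ?_)
  rw [abs_mul, abs_of_nonneg (h0 x)]
  rcases sg_cases x j with h | h <;> rw [h] <;> simp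

lemma sum_mul_G1 (F : (κ → ℤˣ) → ℝ) (b : κ → ℝ) :
    ∑ j, b j * G1 F j = Ex (fun x => (∑ j, b j * sg x j) * F x) := by
  unfold G1
  simp_rw [← Ex_mul_left]
  rw [← Ex_sum]
  refine Ex_congr fun x => ?_
  rw [Finset.sum_mul]
  exact Finset.sum_congr rfl fun j _ => by ring

/-- The tilt in the direction of the level one coefficients. -/
noncomputable def tb (F : (κ → ℤˣ) → ℝ) (j : κ) : ℝ := G1 F j / (20 * Ex F)

lemma abs_tb_le (F : (κ → ℤˣ) → ℝ) (h0 : ∀ x, 0 ≤ F x) (hp : 0 < Ex F) (j : κ) :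
    |tb F j| ≤ 1 / 20 := by
  unfold tb
  rw [abs_div, abs_of_pos (by positivity : 0 < 20 * Ex F), div_le_iff₀ (by positivity)]
  have := abs_G1_le F h0 j
  linarith

lemma sum_tb_G1 (F : (κ → ℤˣ) → ℝ) (hp : 0 < Ex F) :
    ∑ j, tb F j * G1 F j = 20 * Ex F * ∑ j, tb F j ^ 2 := by
  rw [Finset.mul_sum]
  refine Finset.sum_congr rfl fun j _ => ?_
  unfold tb
  field_simp

lemma sum_G1_sq (F : (κ → ℤˣ) → ℝ) (hp : 0 < Ex F) :
    ∑ j, G1 F j ^ 2 = 400 * Ex F ^ 2 * ∑ j, tb F j ^ 2 := by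
  rw [Finset.mul_sum]
  refine Finset.sum_congr rfl fun j _ => ?_
  unfold tb
  field_simp
  norm_num

/-- The trivial level one bound. -/
lemma triv_bound (F : (κ → ℤˣ) → ℝ) (h0 : ∀ x, 0 ≤ F x) (h1 : ∀ x, F x ≤ 1) (hp : 0 < Ex F)
    (A : ℝ) (hA : 0 < A) :
    18 * Ex F * ∑ j, tb F j ^ 2 ≤ Ex F * Real.log A + 1 / A := by
  set B := ∑ j, tb F j ^ 2 with hB
  have hb : ∀ j, |tb F j| ≤ 1 / 2 := fun j => (abs_tb_le F h0 hp j).trans (by norm_num)
  have e := sum_tb_G1 F hp
  rw [sum_mul_G1] at e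
  have h2 : Ex (fun x => (∑ j, tb F j * sg x j) * F x)
      ≤ Ex (fun x => (2 * B + Real.log A) * F x + 1 / A * Lb (tb F) x) := by
    refine Ex_mono fun x => ?_
    have h3 := mul_le_mul_of_nonneg_right (lin_le (tb F) hb A hA x) (h0 x)
    have h4 : Lb (tb F) x / A * F x ≤ 1 / A * Lb (tb F) x := by
      have h5 := (Lb_pos (tb F) hb x).le
      have h6 : Lb (tb F) x / A * F x ≤ Lb (tb F) x / A * 1 :=
        mul_le_mul_of_nonneg_left (h1 x) (by positivity)
      refine h6.trans (le_of_eq ?_)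
      field_simp
    rw [← hB] at h3
    linarith
  rw [Ex_add, Ex_mul_left, Ex_mul_left, show Ex (fun x => Lb (tb F) x) = 1 from Ex_Lb _] at h2
  have h7 : Ex (fun x => F x) = Ex F := rfl
  rw [h7] at h2
  rw [e] at h2
  linarith

end Cube

variable {κ ι W : Type*} [Fintype κ] [DecidableEq κ] [Fintype ι] [DecidableEq ι] [Fintype W]
variable (P : Pr κ ι W) (L : Finset κ) (z : κ → ℤˣ)

/-- The query probability as a function of the free coordinates. -/
noncomputable def qf (t : ℕ) (k : κ) (x : κ → ℤˣ) : ℝ := qn P t (some k) (ps P L z) x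

lemma qf_nonneg (t : ℕ) (k : κ) (x : κ → ℤˣ) : 0 ≤ qf P L z t k x := qn_nonneg P t _ _ x

lemma qf_le_one (t : ℕ) (k : κ) (x : κ → ℤˣ) : qf P L z t k x ≤ 1 := by
  rw [← pn_ps P L z t x]
  exact qn_le_pn P t _ _ x

lemma qf_eq (t : ℕ) (k : κ) (x : κ → ℤˣ) : qf P L z t k x = pk P t k (L.piecewise z x) := rfl

lemma Ex_qf (t : ℕ) (k : κ) : Ex (qf P L z t k) = pq P L z t k := rfl

/-- The mass of the defect at a position. -/
noncomputable def be (m : ℝ) (t : ℕ) (k : κ) : ℝ :=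
  Ex (fun x => qn P t (some k) (ch P L z m t) x)

lemma be_nonneg (m : ℝ) (t : ℕ) (k : κ) : 0 ≤ be P L z m t k := Ex_nonneg fun x => qn_nonneg P t _ _ x

/-- The mass of the killed process at a position. -/
noncomputable def al (m : ℝ) (t : ℕ) (k : κ) : ℝ :=
  Ex (fun x => qn P t (some k) (kp P L z m t) x)

lemma al_nonneg (m : ℝ) (t : ℕ) (k : κ) : 0 ≤ al P L z m t k := Ex_nonneg fun x => qn_nonneg P t _ _ x

lemma al_le (m : ℝ) (t : ℕ) (k : κ) : al P L z m t k ≤ 2 * pq P L z t k + 2 * be P L z m t k := by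
  unfold al be pq
  rw [← Ex_mul_left, ← Ex_mul_left, ← Ex_add]
  refine Ex_mono fun x => ?_
  refine le_trans (le_of_eq ?_) (qn_sub_le P t (some k) (ps P L z) (ch P L z m t) x)
  refine qn_congr P t _ _ _ x fun a _ => ?_
  unfold ch
  abel

lemma qf_le (m : ℝ) (t : ℕ) (k : κ) (x : κ → ℤˣ) :
    qf P L z t k x ≤ 2 * qn P t (some k) (kp P L z m t) x + 2 * qn P t (some k) (ch P L z m t) x := by
  refine le_trans (le_of_eq ?_) (qn_add_le P t (some k) (kp P L z m t) (ch P L z m t) x)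
  refine qn_congr P t _ _ _ x fun a _ => ?_
  unfold ch
  abel

/-- The level one inequality at a position. -/
theorem level_one (m : ℝ) (hm : 0 ≤ m) (t T : ℕ) (hT : t < T) (k : κ) (hp : 0 < pq P L z t k)
    (A A' Λ : ℝ) (hA : 4 ≤ A) (hA' : 0 < A') (hmA : 8 * (T : ℝ) ^ 2 * m ≤ A * pq P L z t k)
    (hΛ : 18 * ∑ j, tb (qf P L z t k) j ^ 2 ≤ Λ) :
    ∑ j, G1 (qf P L z t k) j ^ 2
      ≤ 160 * pq P L z t k ^ 2 * (Real.log A + 1)
        + 40 * (pq P L z t k * be P L z m t k) * (Λ + 4 * (Real.log A + 1) + 2 * Real.log A')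
        + 640 * pq P L z t k / A' := by
  set F := qf P L z t k with hF
  set p := pq P L z t k with hpdef
  have hEF : Ex F = p := rfl
  set β := be P L z m t k with hβ
  set α := al P L z m t k with hα
  set B := ∑ j, tb F j ^ 2 with hB
  have hF0 : ∀ x, 0 ≤ F x := qf_nonneg P L z t k
  have hp' : 0 < Ex F := hp
  have hb20 : ∀ j, |tb F j| ≤ 1 / 20 := abs_tb_le F hF0 hp'
  have hb : ∀ j, |tb F j| ≤ 1 / 2 := fun j => (hb20 j).trans (by norm_num)
  have hb1 : ∀ j, |tb F j| ≤ 1 := fun j => (hb20 j).trans (by norm_num)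
  have hnb : ∀ j, |(fun j => -tb F j) j| ≤ 1 := fun j => by simpa using hb1 j
  have hnb2 : ∀ j, |(fun j => -tb F j) j| ≤ 1 / 2 := fun j => by simpa using hb j
  have hBn : ∑ j, (fun j => -tb F j) j ^ 2 = B :=
    Finset.sum_congr rfl fun j _ => by ring
  have hB0 : 0 ≤ B := Finset.sum_nonneg fun _ _ => sq_nonneg _
  have hβ0 : 0 ≤ β := be_nonneg P L z m t k
  have hα0 : 0 ≤ α := al_nonneg P L z m t k
  have hαβ : α ≤ 2 * p + 2 * β := al_le P L z m t k
  have hApos : 0 < A := by linarith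
  have hlogA : 0 ≤ Real.log A := Real.log_nonneg (by linarith)
  -- the absolute first moment
  have e := sum_tb_G1 F hp'
  rw [sum_mul_G1, ← hB, hEF] at e
  set U : (κ → ℤˣ) → ℝ := fun x => |∑ j, tb F j * sg x j| with hU
  have h1 : Ex (fun x => (∑ j, tb F j * sg x j) * F x)
      ≤ Ex (fun x => 2 * (U x * qn P t (some k) (kp P L z m t) x)
          + 2 * (U x * qn P t (some k) (ch P L z m t) x)) := by
    refine Ex_mono fun x => ?_
    have h2 : (∑ j, tb F j * sg x j) * F x ≤ U x * F x :=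
      mul_le_mul_of_nonneg_right (le_abs_self _) (hF0 x)
    have h3 := mul_le_mul_of_nonneg_left (qf_le P L z m t k x) (abs_nonneg (∑ j, tb F j * sg x j))
    rw [← hF] at h3
    change U x * F x ≤ U x * _ at h3
    linarith
  rw [Ex_add, Ex_mul_left, Ex_mul_left] at h1
  -- the killed part
  have h4 : Ex (fun x => U x * qn P t (some k) (kp P L z m t) x)
      ≤ (2 * B + Real.log A) * α + 1 / A * ((2 * α + 4 * (T : ℝ) ^ 2 * m * B)
        + (2 * α + 4 * (T : ℝ) ^ 2 * m * B)) := by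
    have h5 : Ex (fun x => U x * qn P t (some k) (kp P L z m t) x)
        ≤ Ex (fun x => (2 * B + Real.log A) * qn P t (some k) (kp P L z m t) x
          + 1 / A * (Lb (tb F) x * qn P t (some k) (kp P L z m t) x
            + Lb (fun j => -tb F j) x * qn P t (some k) (kp P L z m t) x)) := by
      refine Ex_mono fun x => ?_
      have h6 := mul_le_mul_of_nonneg_right (abs_lin_le (tb F) hb A hApos x)
        (qn_nonneg P t (some k) (kp P L z m t) x)
      rw [← hB] at h6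
      refine h6.trans (le_of_eq ?_)
      field_simp
    rw [Ex_add, Ex_mul_left, Ex_mul_left, Ex_add] at h5
    have h7 := robust P L z (tb F) hb1 m hm t T hT (some k)
    have h8 := robust P L z (fun j => -tb F j) hnb m hm t T hT (some k)
    rw [hBn] at h8
    rw [← hB] at h7
    refine h5.trans (add_le_add le_rfl (mul_le_mul_of_nonneg_left (add_le_add h7 h8)
      (by positivity)))
  -- the defect part
  have h9 : Ex (fun x => U x * qn P t (some k) (ch P L z m t) x)
      ≤ (2 * B + Real.log A') * β + 8 / A' := by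
    have h5 : Ex (fun x => U x * qn P t (some k) (ch P L z m t) x)
        ≤ Ex (fun x => (2 * B + Real.log A') * qn P t (some k) (ch P L z m t) x
          + 4 / A' * (Lb (tb F) x + Lb (fun j => -tb F j) x)) := by
      refine Ex_mono fun x => ?_
      have hq0 := qn_nonneg P t (some k) (ch P L z m t) x
      have h6 := mul_le_mul_of_nonneg_right (abs_lin_le (tb F) hb A' hA' x) hq0
      rw [← hB] at h6
      refine h6.trans ?_
      have h7 : qn P t (some k) (ch P L z m t) x ≤ 4 :=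
        (qn_le_pn P t _ _ x).trans (pn_ch_le P L z m t x)
      have h8 : 0 ≤ (Lb (tb F) x + Lb (fun j => -tb F j) x) / A' :=
        div_nonneg (add_nonneg (Lb_pos _ hb x).le (Lb_pos _ hnb2 x).le) hA'.le
      have h10 := mul_le_mul_of_nonneg_left h7 h8
      have e2 : (Lb (tb F) x + Lb (fun j => -tb F j) x) / A' * 4
          = 4 / A' * (Lb (tb F) x + Lb (fun j => -tb F j) x) := by ring
      rw [e2] at h10
      rw [add_mul]
      linarith
    rw [Ex_add, Ex_mul_left, Ex_mul_left, Ex_add, show Ex (fun x => Lb (tb F) x) = 1 from Ex_Lb _,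
      show Ex (fun x => Lb (fun j => -tb F j) x) = 1 from Ex_Lb _] at h5
    refine h5.trans (le_of_eq ?_)
    change (2 * B + Real.log A') * β + _ = _
    ring
  -- combine
  have h10 : 1 / A * ((2 * α + 4 * (T : ℝ) ^ 2 * m * B) + (2 * α + 4 * (T : ℝ) ^ 2 * m * B))
      ≤ α + p * B := by
    rw [one_div, inv_mul_le_iff₀ hApos]
    have h11 := mul_le_mul_of_nonneg_right hmA hB0
    have h12 := mul_le_mul_of_nonneg_right hA hα0
    linarith
  have h13 : 12 * β * B ≤ β * Λ := by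
    have := mul_le_mul_of_nonneg_left hΛ hβ0
    have h14 : 0 ≤ β * B := by positivity
    linarith
  have h15 : 4 * α * B ≤ 8 * p * B + 8 * β * B := by
    have := mul_le_mul_of_nonneg_right hαβ hB0
    linarith
  have h16 : 2 * α * (Real.log A + 1) ≤ (4 * p + 4 * β) * (Real.log A + 1) := by
    refine mul_le_mul_of_nonneg_right (by linarith) (by linarith)
  have h17 : 10 * p * B ≤ β * Λ + (4 * p + 4 * β) * (Real.log A + 1) + 2 * β * Real.log A'
      + 16 / A' := by
    have e3 : 2 * (8 / A') = 16 / A' := by ring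
    nlinarith [h1, h4, h9, h10, h13, h15, h16, e]
  rw [sum_G1_sq F hp', ← hB, hEF]
  have h18 := mul_le_mul_of_nonneg_left h17 (by positivity : 0 ≤ 40 * p)
  refine le_trans (le_of_eq (by ring)) (h18.trans (le_of_eq ?_))
  ring

end Pool.Agent.H703R3.QP
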