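import Pool.Agent.H703R3.QP.Static

/-!
# Correlated pairs and random restrictions
-/

set_option autoImplicit false
set_option linter.unusedSectionVars false

namespace Pool.Agent.H703R3.QP

open Finset Pool.Agent.H722R2.AA Pool.Agent.H746R2.AA Pool.Agent.H703R2.AA Pool.Agent.H703R2.AA.Pr
  Pool.Agent.H703R2.AB Pool.Agent.H703R2.AC

section Cube

variable {κ : Type*} [Fintype κ] [DecidableEq κ]

lemma sum_sets_prod (f g : κ → ℝ) :
    ∑ L : Finset κ, ∏ j, (if j ∈ L then f j else g j) = ∏ j, (f j + g j) := by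
  rw [Finset.prod_add, Finset.powerset_univ]
  refine Finset.sum_congr rfl fun L _ => ?_
  rw [← Finset.prod_mul_prod_compl L (fun j => if j ∈ L then f j else g j)]
  congr 1
  · exact Finset.prod_congr rfl fun j hj => if_pos hj
  · rw [Finset.compl_eq_univ_sdiff]
    refine Finset.prod_congr rfl fun j hj => if_neg ?_
    simpa using hj

/-- The weight of a random set. -/
noncomputable def wL (r : ℝ) (L : Finset κ) : ℝ := ∏ j, (if j ∈ L then r else 1 - r)

lemma wL_nonneg {r : ℝ} (h0 : 0 ≤ r) (h1 : r ≤ 1) (L : Finset κ) : 0 ≤ wL r L := by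
  unfold wL
  refine Finset.prod_nonneg fun j _ => ?_
  split_ifs <;> linarith

lemma sum_wL (r : ℝ) : ∑ L : Finset κ, wL r L = 1 := by
  unfold wL
  rw [sum_sets_prod (fun _ => r) (fun _ => 1 - r)]
  simp

lemma wL_insert (r : ℝ) (j : κ) (L : Finset κ) (hj : j ∉ L) :
    (1 - r) * wL r (insert j L) = r * wL r L := by
  unfold wL
  rw [← Finset.mul_prod_erase Finset.univ _ (Finset.mem_univ j),
    ← Finset.mul_prod_erase Finset.univ (fun i => if i ∈ L then r else 1 - r) (Finset.mem_univ j)]
  have e : ∏ i ∈ Finset.univ.erase j, (if i ∈ insert j L then r else 1 - r)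
      = ∏ i ∈ Finset.univ.erase j, (if i ∈ L then r else 1 - r) := by
    refine Finset.prod_congr rfl fun i hi => ?_
    have hi' := Finset.ne_of_mem_erase hi
    simp [Finset.mem_insert, hi']
  rw [e, if_pos (Finset.mem_insert_self j L), if_neg hj]
  ring

/-- The expectation over random restrictions. -/
noncomputable def EL (r : ℝ) (g : Finset κ → (κ → ℤˣ) → ℝ) : ℝ := ∑ L, wL r L * Ex (g L)

lemma EL_sum (r : ℝ) {τ : Type*} (s : Finset τ) (g : τ → Finset κ → (κ → ℤˣ) → ℝ) :
    EL r (fun L z => ∑ a ∈ s, g a L z) = ∑ a ∈ s, EL r (g a) := by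
  unfold EL
  rw [Finset.sum_comm]
  refine Finset.sum_congr rfl fun L _ => ?_
  rw [Ex_sum, Finset.mul_sum]

lemma EL_mono {r : ℝ} (h0 : 0 ≤ r) (h1 : r ≤ 1) {g h : Finset κ → (κ → ℤˣ) → ℝ}
    (H : ∀ L z, g L z ≤ h L z) : EL r g ≤ EL r h :=
  Finset.sum_le_sum fun L _ => mul_le_mul_of_nonneg_left (Ex_mono (H L)) (wL_nonneg h0 h1 L)

lemma EL_affine (r a b : ℝ) (g : Finset κ → (κ → ℤˣ) → ℝ) :
    EL r (fun L z => a * g L z + b) = a * EL r g + b := by
  unfold EL
  have e : ∀ L : Finset κ, wL r L * Ex (fun z => a * g L z + b)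
      = a * (wL r L * Ex (g L)) + b * wL r L := by
    intro L
    rw [Ex_add, Ex_mul_left, Ex_const]
    ring
  rw [Finset.sum_congr rfl fun L _ => e L, Finset.sum_add_distrib, ← Finset.mul_sum,
    ← Finset.mul_sum, sum_wL, mul_one]

lemma EL_nonneg {r : ℝ} (h0 : 0 ≤ r) (h1 : r ≤ 1) {g : Finset κ → (κ → ℤˣ) → ℝ}
    (H : ∀ L z, 0 ≤ g L z) : 0 ≤ EL r g :=
  Finset.sum_nonneg fun L _ => mul_nonneg (wL_nonneg h0 h1 L) (Ex_nonneg (H L))

/-- The transition weights of a restriction. -/
noncomputable def qL (L : Finset κ) (z v : κ → ℤˣ) : ℝ :=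
  ∏ j, (if j ∈ L then (if z j = v j then 1 else 0) else 1 / 2)

lemma Ex_pw (L : Finset κ) (F : (κ → ℤˣ) → ℝ) (z : κ → ℤˣ) :
    Ex (fun x => F (L.piecewise z x)) = ∑ v, F v * qL L z v := by
  have e1 : ∀ x, F (L.piecewise z x) = ∑ v, F v * (if L.piecewise z x = v then 1 else 0) := by
    intro x
    simp
  rw [Ex_congr e1, Ex_sum]
  refine Finset.sum_congr rfl fun v _ => ?_
  rw [Ex_mul_left]
  congr 1
  have e2 : (fun x : κ → ℤˣ => (if L.piecewise z x = v then (1 : ℝ) else 0))
      = fun x => ∏ j, (fun (j : κ) (u : ℤˣ) => if j ∈ L then (if z j = v j then (1 : ℝ) else 0)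
          else (if u = v j then 1 else 0)) j (x j) := by
    funext x
    by_cases h : L.piecewise z x = v
    · rw [if_pos h]
      symm
      refine Finset.prod_eq_one fun j _ => ?_
      have hj := congrFun h j
      by_cases hjL : j ∈ L
      · simp only [hjL, if_true]
        rw [Finset.piecewise_eq_of_mem _ _ _ hjL] at hj
        rw [if_pos hj]
      · simp only [hjL, if_false]
        rw [Finset.piecewise_eq_of_notMem _ _ _ hjL] at hj
        rw [if_pos hj]
    · rw [if_neg h]
      symm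
      obtain ⟨j, hj⟩ := Function.ne_iff.1 h
      refine Finset.prod_eq_zero (Finset.mem_univ j) ?_
      by_cases hjL : j ∈ L
      · simp only [hjL, if_true]
        rw [Finset.piecewise_eq_of_mem _ _ _ hjL] at hj
        rw [if_neg hj]
      · simp only [hjL, if_false]
        rw [Finset.piecewise_eq_of_notMem _ _ _ hjL] at hj
        rw [if_neg hj]
  rw [e2, Ex_prod_cube (fun (j : κ) (u : ℤˣ) => if j ∈ L then (if z j = v j then (1 : ℝ) else 0)
          else (if u = v j then 1 else 0))]
  unfold qL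
  refine Finset.prod_congr rfl fun j _ => ?_
  by_cases hjL : j ∈ L
  · simp only [hjL, if_true]
    ring
  · simp only [hjL, if_false]
    rcases Int.units_eq_one_or (v j) with h | h
    · rw [h, if_pos rfl, if_neg (by decide)]; norm_num
    · rw [h, if_neg (by decide), if_pos rfl]; norm_num

lemma sum_wL_qL (r : ℝ) (z v : κ → ℤˣ) :
    ∑ L : Finset κ, wL r L * qL L z v = (2 : ℝ) ^ Fintype.card κ * wt r v z := by
  have e : ∀ L : Finset κ, wL r L * qL L z v
      = ∏ j, (if j ∈ L then r * (if z j = v j then 1 else 0) else (1 - r) / 2) := by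
    intro L
    unfold wL qL
    rw [← Finset.prod_mul_distrib]
    refine Finset.prod_congr rfl fun j _ => ?_
    split_ifs <;> ring
  rw [Finset.sum_congr rfl fun L _ => e L, sum_sets_prod, ← Finset.card_univ,
    ← Finset.prod_const]
  unfold Pool.Agent.H703R2.AA.wt
  rw [← Finset.prod_mul_distrib]
  refine Finset.prod_congr rfl fun j _ => ?_
  unfold sg
  rcases Int.units_eq_one_or (z j) with h | h <;> rcases Int.units_eq_one_or (v j) with h' | h' <;>
    rw [h, h']
  · rw [if_pos rfl]; push_cast; ring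
  · rw [if_neg (by decide)]; push_cast; ring
  · rw [if_neg (by decide)]; push_cast; ring
  · rw [if_pos rfl]; push_cast; ring

/-- Correlated pairs from random restrictions. -/
lemma PE_eq_EL (r : ℝ) (F G : (κ → ℤˣ) → ℝ) :
    PE r (fun x y => F x * G y)
      = EL r (fun L z => Ex (fun x => F (L.piecewise z x)) * Ex (fun y => G (L.piecewise z y))) := by
  have e1 : ∀ L : Finset κ,
      Ex (fun z => Ex (fun x => F (L.piecewise z x)) * Ex (fun y => G (L.piecewise z y)))
      = Ex (fun z => Ex (fun x => F (L.piecewise z x)) * G z) := by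
    intro L
    rw [Ex_overlay L (fun z => Ex (fun x => F (L.piecewise z x)) * G z)]
    refine Ex_congr fun z => ?_
    rw [← Ex_mul_left]
    refine Ex_congr fun y => ?_
    congr 2
    funext x
    congr 1
    funext j
    by_cases hj : j ∈ L <;> simp [hj]
  unfold EL
  have e2 : ∀ L : Finset κ, wL r L * Ex (fun z => Ex (fun x => F (L.piecewise z x)) * G z)
      = ∑ z, ∑ v, (wL r L * qL L z v) * (F v * G z / 2 ^ Fintype.card κ) := by
    intro L
    have e3 : (fun z => Ex (fun x => F (L.piecewise z x)) * G z)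
        = fun z => (∑ v, F v * qL L z v) * G z := by
      funext z
      rw [Ex_pw]
    rw [e3]
    unfold Ex
    rw [Finset.sum_div, Finset.mul_sum]
    refine Finset.sum_congr rfl fun z _ => ?_
    rw [Finset.sum_mul, Finset.sum_div, Finset.mul_sum]
    refine Finset.sum_congr rfl fun v _ => by ring
  rw [Finset.sum_congr rfl fun L _ => by rw [e1 L, e2 L]]
  rw [Finset.sum_comm]
  unfold PE
  rw [Finset.sum_comm]
  refine Finset.sum_congr rfl fun z _ => ?_
  rw [Finset.sum_comm]
  refine Finset.sum_congr rfl fun v _ => ?_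
  rw [← Finset.sum_mul, sum_wL_qL]
  field_simp

lemma G1_pw (L : Finset κ) (j : κ) (hj : j ∉ L) (F : (κ → ℤˣ) → ℝ) (z : κ → ℤˣ) :
    G1 (fun x => F (L.piecewise z x)) j = Ex (fun x => D F j (L.piecewise z x)) := by
  unfold G1
  have h := Ex_sg_mul j (fun _ => 1) (fun x => F (L.piecewise z x)) (fun _ _ => rfl)
  simp only [mul_one, one_mul] at h
  rw [h]
  refine Ex_congr fun x => ?_
  unfold D
  have e : ∀ u : ℤˣ, L.piecewise z (Function.update x j u)
      = Function.update (L.piecewise z x) j u := by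
    intro u
    funext i
    by_cases hi : i = j
    · subst hi
      simp [hj]
    · by_cases hiL : i ∈ L <;> simp [hi, hiL]
  beta_reduce
  rw [e, e]

lemma D_insert (L : Finset κ) (j : κ) (F : (κ → ℤˣ) → ℝ) (z x : κ → ℤˣ) :
    D F j ((insert j L).piecewise z x) = D F j (L.piecewise z x) := by
  have e : (insert j L).piecewise z x = Function.update (L.piecewise z x) j (z j) := by
    funext i
    by_cases hi : i = j
    · subst hi
      simp
    · by_cases hiL : i ∈ L <;> simp [hi, hiL]
  rw [e, D_update]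

/-- The derivative of a correlation through restrictions. -/
lemma PE_D_le {r : ℝ} (h0 : 0 ≤ r) (h1 : r ≤ 1) (j : κ) (F : (κ → ℤˣ) → ℝ) :
    (1 - r) * PE r (fun x y => D F j x * D F j y)
      ≤ EL r (fun L z => G1 (fun x => F (L.piecewise z x)) j ^ 2) := by
  rw [PE_eq_EL]
  unfold EL
  set t : Finset κ → ℝ := fun L => Ex (fun z => Ex (fun x => D F j (L.piecewise z x))
    * Ex (fun y => D F j (L.piecewise z y))) with ht
  have ht2 : ∀ L, t (insert j L) = t L := by
    intro L
    rw [ht]
    simp only [D_insert]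
  change (1 - r) * ∑ L, wL r L * t L ≤ _
  rw [sum_split j (fun L => wL r L * t L), ← Finset.sum_add_distrib, Finset.mul_sum]
  refine Finset.sum_le_sum fun L _ => ?_
  have hw := wL_nonneg h0 h1 L
  by_cases hj : j ∈ L
  · simp only [hj, if_true]
    rw [add_zero, mul_zero]
    exact mul_nonneg hw (Ex_nonneg fun _ => sq_nonneg _)
  · simp only [hj, if_false]
    have e1 : Ex (fun z => G1 (fun x => F (L.piecewise z x)) j ^ 2) = t L := by
      rw [ht]
      refine Ex_congr fun z => ?_
      rw [G1_pw L j hj, sq]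
    rw [e1, ht2]
    have h2 := wL_insert r j L hj
    have e2 : (1 - r) * (wL r L * t L + wL r (insert j L) * t L)
        = (1 - r) * wL r L * t L + ((1 - r) * wL r (insert j L)) * t L := by ring
    rw [e2, h2]
    apply le_of_eq
    ring

/-- Correlations are positive semidefinite. -/
lemma PE_self_nonneg {r : ℝ} (h0 : 0 ≤ r) (h1 : r ≤ 1) (F : (κ → ℤˣ) → ℝ) :
    0 ≤ PE r (fun x y => F x * F y) := by
  rw [PE_eq_EL]
  exact EL_nonneg h0 h1 fun _ _ => mul_self_nonneg _

lemma PE_mul_le {r : ℝ} (h0 : 0 ≤ r) (h1 : r ≤ 1) (F G : (κ → ℤˣ) → ℝ) :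
    PE r (fun x y => F x * G y)
      ≤ (PE r (fun x y => F x * F y) + PE r (fun x y => G x * G y)) / 2 := by
  rw [PE_eq_EL, PE_eq_EL, PE_eq_EL]
  unfold EL
  rw [← Finset.sum_add_distrib, Finset.sum_div]
  refine Finset.sum_le_sum fun L _ => ?_
  have hw := wL_nonneg h0 h1 L
  rw [← mul_add, mul_div_assoc]
  refine mul_le_mul_of_nonneg_left ?_ hw
  rw [← Ex_add, le_div_iff₀ (by norm_num), ← Ex_mul_right]
  refine Ex_mono fun z => ?_
  nlinarith [sq_nonneg (Ex (fun x => F (L.piecewise z x)) - Ex (fun y => G (L.piecewise z y)))]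

end Cube

variable {κ ι W : Type*} [Fintype κ] [DecidableEq κ] [Fintype ι] [DecidableEq ι] [Fintype W]
variable (P : Pr κ ι W)

/-- The total collision probability. -/
noncomputable def YY (T : ℕ) (r : ℝ) : ℝ := ∑ s ∈ Finset.range T, Cst P s s r

lemma YY_eq (T : ℕ) (r : ℝ) : YY P T r = EL r (fun L z => Ym P L z T) := by
  unfold YY Ym Cst
  rw [EL_sum]
  refine Finset.sum_congr rfl fun s _ => ?_
  rw [EL_sum, PE_sum]
  refine Finset.sum_congr rfl fun k _ => ?_
  rw [PE_eq_EL]
  congr 1
  funext L z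
  rw [sq]
  rfl

/-- The derivative of the collision probability. -/
noncomputable def YD (T : ℕ) (r : ℝ) : ℝ :=
  ∑ s ∈ Finset.range T, ∑ k, ∑ j, PE r (fun x y => D (pk P s k) j x * D (pk P s k) j y)

lemma YY_deriv (T : ℕ) (r : ℝ) : HasDerivAt (YY P T) (YD P T r) r := by
  have e : YY P T = fun r => ∑ s ∈ Finset.range T, ∑ k, PE r (fun x y => pk P s k x * pk P s k y) := by
    funext r
    unfold YY Cst
    exact Finset.sum_congr rfl fun s _ => by rw [PE_sum]
  rw [e]
  exact HasDerivAt.fun_sum fun s _ => HasDerivAt.fun_sum fun k _ =>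
    hasDerivAt_PE (pk P s k) (pk P s k) r

/-- The differential inequality for the collision probability. -/
theorem YD_le (N : ℕ) (hN : 1 ≤ N) (T : ℕ) (hT : 1 ≤ T) {r : ℝ} (h0 : 0 ≤ r) (h1 : r ≤ 1) :
    (1 - r) * YD P T r
      ≤ (640 * Real.log (50 * T * N) + 161) * YY P T r + 700 * N / 2 ^ N * T := by
  have e1 : (1 - r) * YD P T r
      ≤ EL r (fun L z => ∑ s ∈ Finset.range T, ∑ k, ∑ j, G1 (qf P L z s k) j ^ 2) := by
    unfold YD
    rw [EL_sum, Finset.mul_sum]
    refine Finset.sum_le_sum fun s _ => ?_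
    rw [EL_sum, Finset.mul_sum]
    refine Finset.sum_le_sum fun k _ => ?_
    rw [EL_sum, Finset.mul_sum]
    refine Finset.sum_le_sum fun j _ => ?_
    exact PE_D_le h0 h1 j (pk P s k)
  refine e1.trans ?_
  rw [YY_eq, ← EL_affine]
  exact EL_mono h0 h1 fun L z => static_bound P L z N hN T hT

end Pool.Agent.H703R3.QP
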