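import Pool.Agent.H703R3.QP.Rot

/-!
# Killed processes
-/

set_option autoImplicit false
set_option linter.unusedSectionVars false

namespace Pool.Agent.H703R3.QP

open Finset Pool.Agent.H722R2.AA Pool.Agent.H746R2.AA Pool.Agent.H703R2.AA Pool.Agent.H703R2.AA.Pr
  Pool.Agent.H703R2.AB Pool.Agent.H703R2.AC

variable {κ ι W : Type*} [Fintype κ] [DecidableEq κ] [Fintype ι] [DecidableEq ι] [Fintype W]
variable (P : Pr κ ι W) (L : Finset κ) (z : κ → ℤˣ)

/-- Orthogonality of the branches. -/
lemma sum_nsq_sum (h : List W) (v : Option κ → ι → ℝ) :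
    ∑ w, nsq (∑ k, mv (P.a h w k) (v k)) = ∑ k, ∑ w, nsq (mv (P.a h w k) (v k)) := by
  have e1 : ∀ w, nsq (∑ k, mv (P.a h w k) (v k))
      = ∑ k, ∑ l, dot (mv (P.a h w k) (v k)) (mv (P.a h w l) (v l)) := by
    intro w
    rw [← dot_self, dot_sum_left]
    refine Finset.sum_congr rfl fun k _ => ?_
    rw [dot_comm, dot_sum_left]
    refine Finset.sum_congr rfl fun l _ => ?_
    rw [dot_comm]
  simp_rw [e1]
  rw [Finset.sum_comm]
  refine Finset.sum_congr rfl fun k _ => ?_
  rw [Finset.sum_comm, Finset.sum_eq_single k]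
  · simp_rw [dot_self]
  · intro l _ hl
    exact sum_dot_orth P h k l (Ne.symm hl) _ _
  · intro hk
    exact absurd (Finset.mem_univ k) hk

/-- The oracle sign with the coordinates in `L` fixed. -/
noncomputable def so (x : κ → ℤˣ) (k : Option κ) : ℝ := sgo (L.piecewise z x) k

lemma so_sq (x : κ → ℤˣ) (k : Option κ) : so L z x k * so L z x k = 1 := Pr.sgo_sq _ _

/-- One step, with a different state for each optional position. -/
noncomputable def gs (u : Option κ → List W → (κ → ℤˣ) → ι → ℝ) : List W → (κ → ℤˣ) → ι → ℝ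
  | [], _ => 0
  | w :: h, x => ∑ k, mv (P.a h w k) (so L z x k • u k h x)

/-- The squared norm at time `t`. -/
noncomputable def pn (t : ℕ) (u : List W → (κ → ℤˣ) → ι → ℝ) (x : κ → ℤˣ) : ℝ :=
  S t (fun h => nsq (u h x))

/-- The weight of the optional position `k` at time `t`. -/
noncomputable def qn (t : ℕ) (k : Option κ) (u : List W → (κ → ℤˣ) → ι → ℝ) (x : κ → ℤˣ) : ℝ :=
  S t (fun h => ∑ w, nsq (mv (P.a h w k) (u h x)))

lemma pn_nonneg (t : ℕ) (u : List W → (κ → ℤˣ) → ι → ℝ) (x : κ → ℤˣ) : 0 ≤ pn t u x :=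
  S_nonneg t fun _ => nsq_nonneg _

lemma qn_nonneg (t : ℕ) (k : Option κ) (u : List W → (κ → ℤˣ) → ι → ℝ) (x : κ → ℤˣ) :
    0 ≤ qn P t k u x :=
  S_nonneg t fun _ => Finset.sum_nonneg fun _ _ => nsq_nonneg _

lemma sum_qn (t : ℕ) (u : List W → (κ → ℤˣ) → ι → ℝ) (x : κ → ℤˣ) :
    ∑ k, qn P t k u x = pn t u x := by
  unfold qn pn
  rw [← S_sum]
  exact S_congr' t fun h _ => sum_nsq_tot P h _

lemma qn_le_pn (t : ℕ) (k : Option κ) (u : List W → (κ → ℤˣ) → ι → ℝ) (x : κ → ℤˣ) :
    qn P t k u x ≤ pn t u x := by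
  rw [← sum_qn P]
  exact Finset.single_le_sum (f := fun k => qn P t k u x) (fun k _ => qn_nonneg P t k u x)
    (Finset.mem_univ k)

lemma pn_gs (t : ℕ) (u : Option κ → List W → (κ → ℤˣ) → ι → ℝ) (x : κ → ℤˣ) :
    pn (t + 1) (gs P L z u) x = ∑ k, qn P t k (u k) x := by
  unfold pn qn
  simp only [S]
  rw [← S_sum]
  refine S_congr' t fun h _ => ?_
  simp only [gs]
  rw [sum_nsq_sum]
  refine Finset.sum_congr rfl fun k _ => Finset.sum_congr rfl fun w _ => ?_
  rw [mv_smul, nsq_smul, sq, so_sq, one_mul]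

lemma pn_congr (t : ℕ) (u v : List W → (κ → ℤˣ) → ι → ℝ) (x : κ → ℤˣ)
    (h : ∀ a : List W, a.length = t → u a x = v a x) : pn t u x = pn t v x := by
  unfold pn
  exact S_congr' t fun a ha => by rw [h a ha]

lemma qn_congr (t : ℕ) (k : Option κ) (u v : List W → (κ → ℤˣ) → ι → ℝ) (x : κ → ℤˣ)
    (h : ∀ a : List W, a.length = t → u a x = v a x) : qn P t k u x = qn P t k v x := by
  unfold qn
  exact S_congr' t fun a ha => by rw [h a ha]

/-- The true process with the coordinates in `L` fixed. -/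
noncomputable def ps (h : List W) (x : κ → ℤˣ) : ι → ℝ := P.A h (L.piecewise z x)

lemma ps_cons (w : W) (h : List W) (x : κ → ℤˣ) :
    ps P L z (w :: h) x = gs P L z (fun _ => ps P L z) (w :: h) x := by
  unfold ps gs
  simp only [A]
  funext i
  rw [Finset.sum_apply]
  unfold mv Q so
  simp only [Pi.smul_apply, smul_eq_mul]
  rw [Finset.sum_comm]
  refine Finset.sum_congr rfl fun j _ => ?_
  rw [Finset.sum_mul]
  refine Finset.sum_congr rfl fun k _ => by ring

lemma pn_ps (t : ℕ) (x : κ → ℤˣ) : pn t (ps P L z) x = 1 := P.S_nsq t _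

/-- The heavy positions of a state. -/
def hv' (m : ℝ) (t : ℕ) (u : List W → (κ → ℤˣ) → ι → ℝ) (k : Option κ) : Prop :=
  k ≠ none ∧ m < Ex (fun x => qn P t k u x)

/-- The killed process with threshold `m`. -/
noncomputable def kp (m : ℝ) : ℕ → List W → (κ → ℤˣ) → ι → ℝ
  | 0 => fun _ _ => P.v
  | t + 1 => gs P L z (fun k => open Classical in
      if hv' P m t (kp m t) k then 0 else kp m t)

/-- The killed positions. -/
def dead (m : ℝ) (t : ℕ) (k : Option κ) : Prop := hv' P m t (kp P L z m t) k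

lemma kp_succ (m : ℝ) (t : ℕ) : kp P L z m (t + 1)
    = gs P L z (fun k => open Classical in if dead P L z m t k then 0 else kp P L z m t) := rfl

/-- The difference of the true process and the killed process. -/
noncomputable def ch (m : ℝ) (t : ℕ) (h : List W) (x : κ → ℤˣ) : ι → ℝ :=
  ps P L z h x - kp P L z m t h x

lemma qn_zero (t : ℕ) (k : Option κ) (x : κ → ℤˣ) : qn P t k 0 x = 0 := by
  unfold qn
  have : ∀ h : List W, ∑ w, nsq (mv (P.a h w k) ((0 : List W → (κ → ℤˣ) → ι → ℝ) h x)) = 0 := by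
    intro h
    refine Finset.sum_eq_zero fun w _ => ?_
    have e : ((0 : List W → (κ → ℤˣ) → ι → ℝ) h x) = 0 := rfl
    rw [e, mv_zero, nsq_zero]
  simp_rw [this]
  exact S_zero_fun t

lemma pn_kp_le (m : ℝ) (t : ℕ) (x : κ → ℤˣ) : pn t (kp P L z m t) x ≤ 1 := by
  classical
  induction t with
  | zero =>
    unfold pn kp
    simp only [S]
    exact P.hv.le
  | succ t ih =>
    rw [kp_succ, pn_gs]
    refine le_trans ?_ ih
    rw [← sum_qn P]
    refine Finset.sum_le_sum fun k _ => ?_
    split_ifs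
    · rw [qn_zero]; exact qn_nonneg P t k _ x
    · exact le_rfl

lemma ch_cons (m : ℝ) (t : ℕ) (w : W) (h : List W) (x : κ → ℤˣ) :
    ch P L z m (t + 1) (w :: h) x
      = gs P L z (fun k => open Classical in
          if dead P L z m t k then ps P L z else ch P L z m t) (w :: h) x := by
  classical
  unfold ch
  rw [ps_cons, kp_succ]
  simp only [gs]
  rw [← Finset.sum_sub_distrib]
  refine Finset.sum_congr rfl fun k _ => ?_
  rw [← mv_sub, ← smul_sub]
  congr 2
  split_ifs
  · simp
  · rfl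

lemma pn_ch_succ (m : ℝ) (t : ℕ) (x : κ → ℤˣ) :
    pn (t + 1) (ch P L z m (t + 1)) x
      = ∑ k, qn P t k (open Classical in
          if dead P L z m t k then ps P L z else ch P L z m t) x := by
  classical
  rw [← pn_gs]
  refine pn_congr _ _ _ _ fun a ha => ?_
  cases a with
  | nil => simp at ha
  | cons w h => exact ch_cons P L z m t w h x

lemma qn_add_le (t : ℕ) (k : Option κ) (u v : List W → (κ → ℤˣ) → ι → ℝ) (x : κ → ℤˣ) :
    qn P t k (fun h x => u h x + v h x) x ≤ 2 * qn P t k u x + 2 * qn P t k v x := by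
  unfold qn
  rw [← S_mul_left, ← S_mul_left, ← S_add]
  refine S_mono t fun h => ?_
  rw [Finset.mul_sum, Finset.mul_sum, ← Finset.sum_add_distrib]
  refine Finset.sum_le_sum fun w _ => ?_
  rw [mv_add]
  exact nsq_add_le _ _

lemma qn_sub_le (t : ℕ) (k : Option κ) (u v : List W → (κ → ℤˣ) → ι → ℝ) (x : κ → ℤˣ) :
    qn P t k (fun h x => u h x - v h x) x ≤ 2 * qn P t k u x + 2 * qn P t k v x := by
  unfold qn
  rw [← S_mul_left, ← S_mul_left, ← S_add]
  refine S_mono t fun h => ?_
  rw [Finset.mul_sum, Finset.mul_sum, ← Finset.sum_add_distrib]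
  refine Finset.sum_le_sum fun w _ => ?_
  rw [mv_sub]
  exact nsq_sub_le _ _

lemma pn_sub_le (t : ℕ) (u v : List W → (κ → ℤˣ) → ι → ℝ) (x : κ → ℤˣ) :
    pn t (fun h x => u h x - v h x) x ≤ 2 * pn t u x + 2 * pn t v x := by
  unfold pn
  rw [← S_mul_left, ← S_mul_left, ← S_add]
  exact S_mono t fun h => nsq_sub_le _ _

/-- The probability of a query in the restricted process. -/
noncomputable def pq (t : ℕ) (k : κ) : ℝ := Ex (fun x => qn P t (some k) (ps P L z) x)

lemma pq_nonneg (t : ℕ) (k : κ) : 0 ≤ pq P L z t k := Ex_nonneg fun x => qn_nonneg P t _ _ x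

/-- The killed mass. -/
lemma Ex_ch_succ (m : ℝ) (hm : 0 < m) (t : ℕ) :
    Ex (fun x => pn (t + 1) (ch P L z m (t + 1)) x)
      ≤ Ex (fun x => pn t (ch P L z m t) x) + 4 / m * ∑ k, pq P L z t k ^ 2 := by
  classical
  have e1 : Ex (fun x => pn (t + 1) (ch P L z m (t + 1)) x)
      = ∑ k, Ex (fun x => qn P t k (if dead P L z m t k then ps P L z else ch P L z m t) x) := by
    rw [← Ex_sum]
    exact Ex_congr fun x => pn_ch_succ P L z m t x
  have e2 : Ex (fun x => pn t (ch P L z m t) x)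
      = ∑ k, Ex (fun x => qn P t k (ch P L z m t) x) := by
    rw [← Ex_sum]
    exact Ex_congr fun x => (sum_qn P t _ x).symm
  rw [e1, e2, Fintype.sum_option, Fintype.sum_option, Finset.mul_sum, add_assoc,
    ← Finset.sum_add_distrib]
  refine add_le_add ?_ (Finset.sum_le_sum fun k _ => ?_)
  · have : ¬ dead P L z m t none := fun h => h.1 rfl
    rw [if_neg this]
  · have hm4 : 0 ≤ 4 / m * pq P L z t k ^ 2 := by positivity
    split_ifs with h
    · change pq P L z t k ≤ _
      have h1 := h.2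
      have h2 : Ex (fun x => qn P t (some k) (kp P L z m t) x)
          ≤ 2 * pq P L z t k + 2 * Ex (fun x => qn P t (some k) (ch P L z m t) x) := by
        unfold pq
        rw [← Ex_mul_left, ← Ex_mul_left, ← Ex_add]
        refine Ex_mono fun x => ?_
        refine le_trans (le_of_eq ?_) (qn_sub_le P t (some k) (ps P L z) (ch P L z m t) x)
        refine qn_congr P t _ _ _ x fun a _ => ?_
        unfold ch
        abel
      rcases le_or_gt (pq P L z t k) (m / 4) with h3 | h3
      · have : pq P L z t k ≤ Ex (fun x => qn P t (some k) (ch P L z m t) x) := by linarith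
        linarith
      · have h4 : pq P L z t k ≤ 4 / m * pq P L z t k ^ 2 := by
          rw [div_mul_eq_mul_div, le_div_iff₀ hm]
          nlinarith [pq_nonneg P L z t k]
        have h5 : 0 ≤ Ex (fun x => qn P t (some k) (ch P L z m t) x) :=
          Ex_nonneg fun x => qn_nonneg P t _ _ x
        linarith
    · linarith

/-- The killed mass is controlled by the collision mass. -/
theorem Ex_ch_le (m : ℝ) (hm : 0 < m) (t : ℕ) :
    Ex (fun x => pn t (ch P L z m t) x)
      ≤ 4 / m * ∑ s ∈ Finset.range t, ∑ k, pq P L z s k ^ 2 := by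
  induction t with
  | zero =>
    simp only [Finset.range_zero, Finset.sum_empty, mul_zero]
    refine (Ex_le_const (c := 0) fun x => ?_)
    unfold pn ch kp ps
    simp only [S, A, sub_self]
    exact nsq_zero.le
  | succ t ih =>
    rw [Finset.sum_range_succ, mul_add]
    have := Ex_ch_succ P L z m hm t
    linarith

lemma sum_Ex_qn_ch (m : ℝ) (hm : 0 < m) (t : ℕ) :
    ∑ k : κ, Ex (fun x => qn P t (some k) (ch P L z m t) x)
      ≤ 4 / m * ∑ s ∈ Finset.range t, ∑ k, pq P L z s k ^ 2 := by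
  refine le_trans ?_ (Ex_ch_le P L z m hm t)
  rw [← Ex_sum]
  refine Ex_mono fun x => ?_
  rw [← sum_qn P, Fintype.sum_option]
  have := qn_nonneg P t none (ch P L z m t) x
  linarith

lemma pn_ch_le (m : ℝ) (t : ℕ) (x : κ → ℤˣ) : pn t (ch P L z m t) x ≤ 4 := by
  have h1 := pn_sub_le t (ps P L z) (kp P L z m t) x
  rw [pn_ps] at h1
  have h2 := pn_kp_le P L z m t x
  unfold ch
  linarith

end Pool.Agent.H703R3.QP
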