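import Pool.Agent.H703R3.QP.Flow

/-!
# The light lemma with a quasi-polynomial threshold
-/

set_option autoImplicit false
set_option linter.unusedSectionVars false

namespace Pool.Agent.H703R3.QP

open Finset Pool.Agent.H722R2.AA Pool.Agent.H746R2.AA Pool.Agent.H703R2.AA Pool.Agent.H703R2.AA.Pr
  Pool.Agent.H703R2.AB Pool.Agent.H703R2.AC

variable {κ ι W : Type*} [Fintype κ] [DecidableEq κ] [Fintype ι] [DecidableEq ι] [Fintype W]
variable (P : Pr κ ι W)

lemma YY_nonneg (T : ℕ) {r : ℝ} (h0 : 0 ≤ r) (h1 : r ≤ 1) : 0 ≤ YY P T r :=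
  Finset.sum_nonneg fun s _ => Cst_nonneg P h0 h1 s s

/-- Integration of the differential inequality. -/
lemma YY_le (T : ℕ) (hT : 1 ≤ T) (N : ℕ) (hN : 1 ≤ N) (n : ℕ)
    (hn : 640 * Real.log (50 * T * N) + 161 ≤ n) (r : ℝ) (h0 : 0 ≤ r) (h1 : r ≤ 1) :
    (1 - r) ^ n * (YY P T r + 700 * N / 2 ^ N * T) ≤ YY P T 0 + 700 * N / 2 ^ N * T := by
  set B : ℝ := 700 * N / 2 ^ N * T with hB
  have hB0 : 0 ≤ B := by positivity
  have hT1 : (1 : ℝ) ≤ T := by exact_mod_cast hT
  have hN1 : (1 : ℝ) ≤ N := by exact_mod_cast hN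
  have hlog : 0 ≤ Real.log (50 * T * N) := Real.log_nonneg (by nlinarith)
  have hn1 : (1 : ℝ) ≤ n := by linarith
  have hn0 : 1 ≤ n := by exact_mod_cast hn1
  set u : ℝ → ℝ := fun r => (1 - r) ^ n * (YY P T r + B) with hu
  have hud : ∀ r, HasDerivAt u (n * (1 - r) ^ (n - 1) * (-1) * (YY P T r + B)
      + (1 - r) ^ n * YD P T r) r := by
    intro r
    have d1 : HasDerivAt (fun r : ℝ => (1 - r) ^ n) (n * (1 - r) ^ (n - 1) * (-1)) r := by
      have := ((hasDerivAt_id' r).const_sub 1).fun_pow n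
      simpa using this
    exact d1.mul ((YY_deriv P T r).add_const B)
  have hanti : AntitoneOn u (Set.Icc 0 1) := by
    refine antitoneOn_of_deriv_nonpos (convex_Icc 0 1)
      (fun x _ => (hud x).continuousAt.continuousWithinAt)
      (fun x _ => (hud x).differentiableAt.differentiableWithinAt) ?_
    intro x hx
    rw [interior_Icc] at hx
    rw [(hud x).deriv]
    have h2 := YD_le P N hN T hT hx.1.le hx.2.le
    rw [← hB] at h2
    have hY := YY_nonneg P T hx.1.le hx.2.le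
    have h3 : (1 - x) * YD P T x ≤ n * (YY P T x + B) := by
      have h4 := mul_le_mul_of_nonneg_right hn hY
      have h5 := mul_le_mul_of_nonneg_right hn1 hB0
      linarith
    have hx1 : 0 ≤ (1 - x) ^ (n - 1) := pow_nonneg (by linarith [hx.2]) _
    have h6 := mul_le_mul_of_nonneg_left h3 hx1
    have e : (1 - x) ^ n = (1 - x) ^ (n - 1) * (1 - x) := by
      rw [← pow_succ, Nat.sub_add_cancel hn0]
    rw [e]
    linarith
  have h2 := hanti (Set.left_mem_Icc.2 zero_le_one) (Set.mem_Icc.2 ⟨h0, h1⟩) h0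
  simp only [hu] at h2
  simpa using h2

lemma Cst_le_one {r : ℝ} (h0 : 0 ≤ r) (h1 : r ≤ 1) (s t : ℕ) : Cst P s t r ≤ 1 := by
  unfold Cst
  have : PE r (fun x y => ∑ k, pk P s k x * pk P t k y) ≤ PE (κ := κ) r (fun _ _ => 1) := by
    refine PE_mono h0 h1 fun x y => ?_
    calc ∑ k, pk P s k x * pk P t k y ≤ ∑ k, pk P s k x * 1 := by
          refine Finset.sum_le_sum fun k _ => mul_le_mul_of_nonneg_left ?_ (pk_nonneg P s k x)
          exact (Finset.single_le_sum (f := fun k => pk P t k y) (fun k _ => pk_nonneg P t k y)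
            (Finset.mem_univ k)).trans (sum_pk_le P t y)
      _ ≤ 1 := by
          simp_rw [mul_one]
          exact sum_pk_le P s x
  rwa [PE_const] at this

lemma Cst_le_YY {r : ℝ} (h0 : 0 ≤ r) (h1 : r ≤ 1) (s t T : ℕ) (hs : s < T) (ht : t < T) :
    Cst P s t r ≤ YY P T r := by
  have h2 : Cst P s t r ≤ (Cst P s s r + Cst P t t r) / 2 := by
    unfold Cst
    rw [PE_sum, PE_sum, PE_sum, ← Finset.sum_add_distrib, Finset.sum_div]
    exact Finset.sum_le_sum fun k _ => PE_mul_le h0 h1 _ _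
  have h3 : ∀ s < T, Cst P s s r ≤ YY P T r := fun s hs =>
    Finset.single_le_sum (f := fun s => Cst P s s r) (fun s _ => Cst_nonneg P h0 h1 s s)
      (Finset.mem_range.2 hs)
  have := h3 s hs
  have := h3 t ht
  linarith

/-- The light lemma. -/
theorem light_q (T : ℕ) (hT : 1 ≤ T) (N : ℕ) (hN : 1 ≤ N) (n : ℕ)
    (hn : 640 * Real.log (50 * T * N) + 161 ≤ n) (η θ : ℝ) (hη0 : 0 < η) (hη1 : η ≤ 1)
    (hθ : 0 ≤ θ) (hlight : ∀ t < T, ∀ k, Ex (pk P t k) ≤ θ)
    (hsmall : T * θ + 700 * N / 2 ^ N * T ≤ η ^ (n + 2))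
    (g : List W → ℝ) (hg0 : ∀ a, 0 ≤ g a) (hg1 : ∀ a, g a ≤ 1) :
    Cov (P.out T g) (P.out T g) ≤ 8 * (T : ℝ) ^ 2 * η := by
  set φ : ℝ → ℝ := Ft P (bg g) T T with hφ
  have hφ1 : ∀ r, 0 ≤ r → r ≤ 1 → φ r ≤ 1 := by
    intro r h0 h1
    rw [hφ]
    unfold Ft
    have : PE r (fun x y => ∑ k, tk P (bg g) T k x * tk P (bg g) T k y) ≤ PE (κ := κ) r (fun _ _ => 1) := by
      refine PE_mono h0 h1 fun x y => ?_
      simp only [Finset.univ_unique, Finset.sum_singleton]
      rw [tk_bg P g hg0]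
      exact mul_le_one₀ (P.out_le T g hg1 x) (P.out_nonneg T g hg0 y) (P.out_le T g hg1 y)
    rwa [PE_const] at this
  have hφ0 : ∀ r, 0 ≤ r → r ≤ 1 → 0 ≤ φ r := fun r h0 h1 => Ft_nonneg P (bg g) h0 h1 T T
  have hφd : ∀ r, HasDerivAt φ (∑ k, ∑ j, PE r (fun x y =>
      D (tk P (bg g) T k) j x * D (tk P (bg g) T k) j y)) r := fun r => Ft_deriv P (bg g) T T r
  have hdc : ∀ r, 0 ≤ r → r ≤ 1 → ∀ c q : ℝ, 0 < c → (∀ s' < T, ∀ t' < T, Cst P s' t' r ≤ q) →
      deriv φ r ≤ 2 * (T : ℝ) ^ 2 * (c * q + 1 / c) := by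
    intro r h0 h1 c q hc hq
    rw [(hφd r).deriv]
    refine (deriv_le P (bg g) (bg_contr g hg0 hg1) h0 h1 T T (fun _ _ => c) (fun _ _ => hc)).trans ?_
    have h2 : ∑ s' ∈ Finset.range T, ∑ t' ∈ Finset.range T,
        (c * Cst P s' t' r + Ft P (bg g) T T r / c)
        ≤ ∑ s' ∈ Finset.range T, ∑ t' ∈ Finset.range T, (c * q + 1 / c) := by
      refine Finset.sum_le_sum fun s' hs' => Finset.sum_le_sum fun t' ht' => ?_
      rw [Finset.mem_range] at hs' ht'
      refine add_le_add (mul_le_mul_of_nonneg_left (hq s' hs' t' ht') hc.le)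
        (div_le_div_of_nonneg_right (hφ1 r h0 h1) hc.le)
    rw [Finset.sum_const, Finset.sum_const, Finset.card_range, nsmul_eq_mul, nsmul_eq_mul] at h2
    linarith
  -- the collision probability before time `1 - η`
  have hY0 : YY P T 0 ≤ T * θ := by
    unfold YY
    calc ∑ s ∈ Finset.range T, Cst P s s 0 ≤ ∑ _s ∈ Finset.range T, θ :=
          Finset.sum_le_sum fun s hs =>
            Cst_zero_le P θ s s (fun k => hlight s (Finset.mem_range.1 hs) k) hθ
      _ = _ := by rw [Finset.sum_const, Finset.card_range, nsmul_eq_mul]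
  have hYr : ∀ r, 0 ≤ r → r ≤ 1 - η → YY P T r ≤ η ^ 2 := by
    intro r h0 h1
    have h2 := YY_le P T hT N hN n hn r h0 (by linarith)
    have hB0 : (0 : ℝ) ≤ 700 * N / 2 ^ N * T := by positivity
    have hY := YY_nonneg P T h0 (by linarith : r ≤ 1)
    have h3 : η ^ n ≤ (1 - r) ^ n := pow_le_pow_left₀ hη0.le (by linarith) n
    have h4 : η ^ n * YY P T r ≤ η ^ n * η ^ 2 := by
      rw [← pow_add]
      calc η ^ n * YY P T r ≤ η ^ n * (YY P T r + 700 * N / 2 ^ N * T) :=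
            mul_le_mul_of_nonneg_left (by linarith) (by positivity)
        _ ≤ (1 - r) ^ n * (YY P T r + 700 * N / 2 ^ N * T) :=
            mul_le_mul_of_nonneg_right h3 (by positivity)
        _ ≤ _ := by linarith
    exact le_of_mul_le_mul_left h4 (by positivity)
  have hcont : ∀ s : Set ℝ, ContinuousOn φ s := fun s x _ => (hφd x).continuousAt.continuousWithinAt
  have hdiff : ∀ s : Set ℝ, DifferentiableOn ℝ φ s := fun s x _ =>
    (hφd x).differentiableAt.differentiableWithinAt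
  have hT0 : (0 : ℝ) ≤ 4 * (T : ℝ) ^ 2 := by positivity
  have p1 : φ (1 - η) - φ 0 ≤ 4 * (T : ℝ) ^ 2 * η * ((1 - η) - 0) := by
    refine (convex_Icc (0 : ℝ) (1 - η)).image_sub_le_mul_sub_of_deriv_le (hcont _) (hdiff _) ?_
      0 (Set.left_mem_Icc.2 (by linarith)) (1 - η) (Set.right_mem_Icc.2 (by linarith)) (by linarith)
    intro x hx
    rw [interior_Icc] at hx
    refine (hdc x hx.1.le (by linarith [hx.2]) (1 / η) (η ^ 2) (by positivity)
      (fun s' hs' t' ht' => (Cst_le_YY P hx.1.le (by linarith [hx.2]) s' t' T hs' ht').trans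
        (hYr x hx.1.le hx.2.le))).trans (le_of_eq ?_)
    field_simp
    ring
  have p2 : φ 1 - φ (1 - η) ≤ 4 * (T : ℝ) ^ 2 * (1 - (1 - η)) := by
    refine (convex_Icc (1 - η) (1 : ℝ)).image_sub_le_mul_sub_of_deriv_le (hcont _) (hdiff _) ?_
      (1 - η) (Set.left_mem_Icc.2 (by linarith)) 1 (Set.right_mem_Icc.2 (by linarith)) (by linarith)
    intro x hx
    rw [interior_Icc] at hx
    have hx0 : 0 ≤ x := by linarith [hx.1]
    refine (hdc x hx0 hx.2.le 1 1 one_pos
      (fun s' _ t' _ => Cst_le_one P hx0 hx.2.le s' t')).trans (le_of_eq ?_)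
    ring
  have hcov : Cov (P.out T g) (P.out T g) = φ 1 - φ 0 := by
    rw [hφ]
    unfold Ft
    simp only [Finset.univ_unique, Finset.sum_singleton]
    rw [tk_bg P g hg0, PE_one, PE_zero]
    unfold Cov
    congr 1
    simp_rw [Ex_mul_left]
    rw [Ex_mul_right]
  rw [hcov]
  have h3 : 4 * (T : ℝ) ^ 2 * η * ((1 - η) - 0) ≤ 4 * (T : ℝ) ^ 2 * η := by
    have h4 : 4 * (T : ℝ) ^ 2 * η * ((1 - η) - 0) ≤ 4 * (T : ℝ) ^ 2 * η * 1 :=
      mul_le_mul_of_nonneg_left (by linarith) (by positivity)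
    linarith
  linarith

/-- The numbers. -/
lemma numbers (T : ℕ) (hT : 1 ≤ T) (V : ℝ) (hV0 : 0 < V) (hV1 : V ≤ 1) :
    ∃ N n : ℕ, 1 ≤ N ∧ 640 * Real.log (50 * T * N) + 161 ≤ n ∧
      T * Real.exp (-(4900 * Real.log (32 * (T : ℝ) ^ 2 / V) ^ 2)) + 700 * N / 2 ^ N * T
        ≤ (V / (32 * (T : ℝ) ^ 2)) ^ (n + 2) := by
  have hT1 : (1 : ℝ) ≤ T := by exact_mod_cast hT
  have hT0 : (0 : ℝ) < T := by linarith
  set X : ℝ := 32 * (T : ℝ) ^ 2 / V with hX
  have hX32 : 32 * (T : ℝ) ^ 2 ≤ X := by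
    rw [hX, le_div_iff₀ hV0]
    have : 0 ≤ 32 * (T : ℝ) ^ 2 := by positivity
    nlinarith
  have hT2 : (T : ℝ) ≤ (T : ℝ) ^ 2 := by nlinarith
  have hX0 : 0 < X := by positivity
  set l : ℝ := Real.log X with hl
  have hexp : Real.exp l = X := Real.exp_log hX0
  have h346 : (3.46 : ℝ) ≤ l := by
    have h1 : Real.log 32 ≤ l := Real.log_le_log (by norm_num) (by nlinarith)
    have h2 : Real.log 32 = 5 * Real.log 2 := by
      rw [show (32 : ℝ) = 2 ^ 5 by norm_num, Real.log_pow]; norm_num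
    have := Real.log_two_gt_d9
    linarith
  have hl0 : 0 < l := by linarith
  have hl2 : 3.46 * l ≤ l ^ 2 := by nlinarith
  -- `T ≤ exp l / 32`
  have hTe : (T : ℝ) ≤ Real.exp l / 32 := by
    rw [hexp, le_div_iff₀ (by norm_num)]
    linarith
  set N : ℕ := ⌈10000 * l ^ 2⌉₊ with hN
  have hN1 : 10000 * l ^ 2 ≤ N := Nat.le_ceil _
  have hN2 : (N : ℝ) ≤ 10001 * l ^ 2 := by
    have h1 : (N : ℝ) < 10000 * l ^ 2 + 1 := Nat.ceil_lt_add_one (by positivity)
    have h2 : (1 : ℝ) ≤ l ^ 2 := by nlinarith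
    linarith
  have hNpos : 1 ≤ N := by
    have : (1 : ℝ) ≤ N := by nlinarith
    exact_mod_cast this
  have hle : l ^ 2 ≤ Real.exp (2 * l) := by
    have h1 : l ≤ Real.exp l := by
      have := Real.add_one_le_exp l
      linarith
    rw [show (2 : ℝ) * l = l + l by ring, Real.exp_add]
    nlinarith
  have hNe : (N : ℝ) ≤ 10001 * Real.exp (2 * l) := by
    have := mul_le_mul_of_nonneg_left hle (by norm_num : (0 : ℝ) ≤ 10001)
    linarith
  have he3 : Real.exp (2 * l) * Real.exp l = Real.exp (3 * l) := by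
    rw [← Real.exp_add]; congr 1; ring
  have hTN : (T : ℝ) * N ≤ 313 * Real.exp (3 * l) := by
    have h1 : (T : ℝ) * N ≤ (Real.exp l / 32) * (10001 * Real.exp (2 * l)) :=
      mul_le_mul hTe hNe (by positivity) (by positivity)
    rw [← he3]
    have h2 : 0 < Real.exp (2 * l) * Real.exp l := by positivity
    nlinarith
  -- logarithm bound
  have hlog : Real.log (50 * T * N) ≤ 6 * l := by
    have hNp : (0 : ℝ) < N := by exact_mod_cast hNpos
    have h1 : Real.log (50 * T * N) ≤ Real.log (15650 * Real.exp (3 * l)) := by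
      refine Real.log_le_log (by positivity) ?_
      have : 50 * (T : ℝ) * N = 50 * (T * N) := by ring
      rw [this]
      linarith
    rw [Real.log_mul (by norm_num) (Real.exp_pos _).ne', Real.log_exp] at h1
    have h2 : Real.log 15650 ≤ 14 * Real.log 2 := by
      rw [show (14 : ℝ) * Real.log 2 = Real.log (2 ^ 14) by rw [Real.log_pow]; norm_num]
      exact Real.log_le_log (by norm_num) (by norm_num)
    have := Real.log_two_lt_d9
    linarith
  set n : ℕ := ⌈640 * Real.log (50 * T * N) + 161⌉₊ with hn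
  have hn1 : 640 * Real.log (50 * T * N) + 161 ≤ n := Nat.le_ceil _
  have hlog0 : 0 ≤ Real.log (50 * T * N) := by
    refine Real.log_nonneg ?_
    have hNp : (1 : ℝ) ≤ N := by exact_mod_cast hNpos
    nlinarith
  have hn2 : (n : ℝ) + 2 ≤ 3890 * l := by
    have h1 : (n : ℝ) < 640 * Real.log (50 * T * N) + 161 + 1 := Nat.ceil_lt_add_one (by positivity)
    linarith
  refine ⟨N, n, hNpos, hn1, ?_⟩
  have hη : V / (32 * (T : ℝ) ^ 2) = Real.exp (-l) := by
    rw [Real.exp_neg, hexp, hX, inv_div]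
  have hpow : Real.exp (-(3890 * l ^ 2)) ≤ (V / (32 * (T : ℝ) ^ 2)) ^ (n + 2) := by
    rw [hη, ← Real.exp_nat_mul]
    refine Real.exp_le_exp.2 ?_
    push_cast
    nlinarith
  refine le_trans ?_ hpow
  -- first term
  have h1 : (T : ℝ) * Real.exp (-(4900 * l ^ 2)) ≤ Real.exp (-(3890 * l ^ 2)) / 2 := by
    have h2 : (T : ℝ) ≤ Real.exp (1010 * l ^ 2) / 2 := by
      have h3 : Real.exp l ≤ Real.exp (1010 * l ^ 2) := Real.exp_le_exp.2 (by nlinarith)
      have h4 := Real.exp_pos l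
      linarith
    have h5 := mul_le_mul_of_nonneg_right h2 (Real.exp_pos (-(4900 * l ^ 2))).le
    refine h5.trans (le_of_eq ?_)
    rw [div_mul_eq_mul_div, ← Real.exp_add]
    congr 2
    ring
  -- second term
  have h2 : 700 * (N : ℝ) / 2 ^ N * T ≤ Real.exp (-(3890 * l ^ 2)) / 2 := by
    have h3 : Real.exp (6900 * l ^ 2) ≤ (2 : ℝ) ^ N := by
      have h4 : (2 : ℝ) ^ N = Real.exp (N * Real.log 2) := by
        rw [← Real.log_pow, Real.exp_log (by positivity)]
      rw [h4]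
      refine Real.exp_le_exp.2 ?_
      have h5 : (0.69 : ℝ) ≤ Real.log 2 := by
        have := Real.log_two_gt_d9
        linarith
      have h6 : (N : ℝ) * 0.69 ≤ N * Real.log 2 := mul_le_mul_of_nonneg_left h5 (by positivity)
      have h7 := mul_le_mul_of_nonneg_right hN1 (by norm_num : (0 : ℝ) ≤ 0.69)
      linarith
    have h4 : 700 * (N : ℝ) / 2 ^ N * T = 700 * (T * N) / 2 ^ N := by ring
    rw [h4]
    have h5 : 700 * ((T : ℝ) * N) / 2 ^ N ≤ 700 * (313 * Real.exp (3 * l)) / Real.exp (6900 * l ^ 2) :=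
      div_le_div₀ (by positivity) (by linarith) (Real.exp_pos _) h3
    refine h5.trans ?_
    rw [div_le_iff₀ (Real.exp_pos _)]
    have h6 : Real.exp (-(3890 * l ^ 2)) / 2 * Real.exp (6900 * l ^ 2)
        = Real.exp (3010 * l ^ 2) / 2 := by
      rw [div_mul_eq_mul_div, ← Real.exp_add]
      congr 2
      ring
    rw [h6]
    have h7 : (438200 : ℝ) ≤ Real.exp (19 * Real.log 2) := by
      rw [show (19 : ℝ) * Real.log 2 = Real.log (2 ^ 19) by rw [Real.log_pow]; norm_num,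
        Real.exp_log (by norm_num)]
      norm_num
    have h8 : Real.exp (19 * Real.log 2) * Real.exp (3 * l) ≤ Real.exp (3010 * l ^ 2) := by
      rw [← Real.exp_add]
      refine Real.exp_le_exp.2 ?_
      have := Real.log_two_lt_d9
      nlinarith
    have h9 := mul_le_mul_of_nonneg_right h7 (Real.exp_pos (3 * l)).le
    linarith
  linarith

end Pool.Agent.H703R3.QP
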