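import Pool.Agent.H703R3.QP.Kill

/-!
# Product tilts of a light process
-/

set_option autoImplicit false
set_option linter.unusedSectionVars false

namespace Pool.Agent.H703R3.QP

open Finset Pool.Agent.H722R2.AA Pool.Agent.H746R2.AA Pool.Agent.H703R2.AA Pool.Agent.H703R2.AA.Pr
  Pool.Agent.H703R2.AB Pool.Agent.H703R2.AC

variable {κ ι W : Type*} [Fintype κ] [DecidableEq κ] [Fintype ι] [DecidableEq ι] [Fintype W]
variable (P : Pr κ ι W) (L : Finset κ) (z : κ → ℤˣ)

lemma nsq_sub_le' (τ : ℝ) (hτ : 0 < τ) (u v : ι → ℝ) :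
    nsq (u - v) ≤ (1 + 1 / τ) * nsq u + (1 + τ) * nsq v := by
  unfold nsq
  rw [Finset.mul_sum, Finset.mul_sum, ← Finset.sum_add_distrib]
  refine Finset.sum_le_sum fun i _ => ?_
  rw [Pi.sub_apply]
  have h : (1 + 1 / τ) * u i ^ 2 + (1 + τ) * v i ^ 2 - (u i - v i) ^ 2 = (u i + τ * v i) ^ 2 / τ := by
    field_simp
    ring
  have : 0 ≤ (u i + τ * v i) ^ 2 / τ := by positivity
  linarith

lemma qn_smul (t : ℕ) (k : Option κ) (a : (κ → ℤˣ) → ℝ) (u : List W → (κ → ℤˣ) → ι → ℝ)
    (x : κ → ℤˣ) : qn P t k (fun h x => a x • u h x) x = a x ^ 2 * qn P t k u x := by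
  unfold qn
  rw [← S_mul_left]
  refine S_congr' t fun h _ => ?_
  rw [Finset.mul_sum]
  refine Finset.sum_congr rfl fun w _ => ?_
  rw [mv_smul, nsq_smul]

lemma qn_sub_le' (τ : ℝ) (hτ : 0 < τ) (t : ℕ) (k : Option κ)
    (u v : List W → (κ → ℤˣ) → ι → ℝ) (x : κ → ℤˣ) :
    qn P t k (fun h x => u h x - v h x) x
      ≤ (1 + 1 / τ) * qn P t k u x + (1 + τ) * qn P t k v x := by
  unfold qn
  rw [← S_mul_left, ← S_mul_left, ← S_add]
  refine S_mono t fun h => ?_
  rw [Finset.mul_sum, Finset.mul_sum, ← Finset.sum_add_distrib]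
  refine Finset.sum_le_sum fun w _ => ?_
  rw [mv_sub]
  exact nsq_sub_le' τ hτ _ _

lemma Ex_qn_Wr (c s : κ → ℝ) (hcs : ∀ j, c j ^ 2 + s j ^ 2 = 1) (t : ℕ) (k : Option κ)
    (u : List W → (κ → ℤˣ) → ι → ℝ) :
    Ex (fun x => qn P t k (fun h x => Wr c s (u h) x) x) = Ex (fun x => qn P t k u x) := by
  unfold qn
  rw [Ex_S, Ex_S]
  refine S_congr' t fun h _ => ?_
  rw [Ex_sum, Ex_sum]
  refine Finset.sum_congr rfl fun w _ => ?_
  rw [← Ex_Wr c s hcs (fun x => mv (P.a h w k) (u h x))]
  exact Ex_congr fun x => by rw [Wr_mv]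

/-- The commutator of the rotation with the oracle. -/
noncomputable def Cm (c s : κ → ℝ) (k : Option κ) (u : (κ → ℤˣ) → ι → ℝ) (x : κ → ℤˣ) : ι → ℝ :=
  match k with
  | none => 0
  | some j => if j ∈ L then 0
      else (-2 * s j) • Wr (Function.update c j 1) (Function.update s j 0) u (fl j x)

lemma Wr_so (c s : κ → ℝ) (k : Option κ) (u : (κ → ℤˣ) → ι → ℝ) (x : κ → ℤˣ) :
    Wr c s (fun x => so L z x k • u x) x = so L z x k • Wr c s u x + Cm L c s k u x := by
  cases k with
  | none =>
    have e : ∀ x, so L z x none = 1 := fun x => rfl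
    simp only [e, one_smul, Cm, add_zero]
  | some j =>
    by_cases hj : j ∈ L
    · have e : ∀ x, so L z x (some j) = sg z j := by
        intro x
        unfold so sgo sg
        simp [hj]
      simp only [e, Cm, if_pos hj, add_zero]
      rw [Wr_smul]
    · have e : ∀ x, so L z x (some j) = sg x j := by
        intro x
        unfold so sgo sg
        simp [hj]
      simp only [e, Cm, if_neg hj]
      exact Wr_sg_smul c s j u x

/-- The amplitude of the tilt. -/
noncomputable def lb (c s : κ → ℝ) (x : κ → ℤˣ) : ℝ := ∏ j, (c j + s j * sg x j)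

/-- The defect of the rotated process. -/
noncomputable def dr (c s : κ → ℝ) (m : ℝ) (t : ℕ) (h : List W) (x : κ → ℤˣ) : ι → ℝ :=
  lb c s x • kp P L z m t h x - Wr c s (kp P L z m t h) x

lemma Wr_zero (c s : κ → ℝ) (x : κ → ℤˣ) : Wr c s (0 : (κ → ℤˣ) → ι → ℝ) x = 0 := by
  have := Wr_smul c s 0 (0 : (κ → ℤˣ) → ι → ℝ) x
  rw [zero_smul] at this
  rw [← this]
  congr 1
  funext y
  simp

lemma dr_cons (c s : κ → ℝ) (m : ℝ) (t : ℕ) (w : W) (h : List W) (x : κ → ℤˣ) :
    dr P L z c s m (t + 1) (w :: h) x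
      = gs P L z (fun k => open Classical in
          if dead P L z m t k then 0
          else fun h x => dr P L z c s m t h x
            - so L z x k • Cm L c s k (kp P L z m t h) x) (w :: h) x := by
  classical
  have e1 : Wr c s (kp P L z m (t + 1) (w :: h)) x
      = ∑ k, mv (P.a h w k) (if dead P L z m t k then 0
          else so L z x k • Wr c s (kp P L z m t h) x + Cm L c s k (kp P L z m t h) x) := by
    have e2 : kp P L z m (t + 1) (w :: h)
        = fun x => ∑ k, mv (P.a h w k) (so L z x k •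
            (if dead P L z m t k then (0 : List W → (κ → ℤˣ) → ι → ℝ) else kp P L z m t) h x) := by
      rw [kp_succ]; rfl
    rw [e2, Wr_sum]
    refine Finset.sum_congr rfl fun k _ => ?_
    rw [Wr_mv]
    congr 1
    split_ifs
    · have e3 : (fun x : κ → ℤˣ => so L z x k • (0 : List W → (κ → ℤˣ) → ι → ℝ) h x) = 0 := by
        funext y
        simp
      rw [e3, Wr_zero]
    · exact Wr_so L z c s k (kp P L z m t h) x
  unfold dr
  rw [e1, kp_succ]
  simp only [gs]
  rw [Finset.smul_sum, ← Finset.sum_sub_distrib]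
  refine Finset.sum_congr rfl fun k _ => ?_
  rw [← mv_smul, ← mv_sub]
  congr 1
  split_ifs
  · simp
  · rw [smul_sub, smul_sub, smul_smul (so L z x k) (so L z x k), so_sq, one_smul,
      smul_comm (lb c s x) (so L z x k), sub_sub]

lemma dr_step (c s : κ → ℝ) (hcs : ∀ j, c j ^ 2 + s j ^ 2 = 1) (m : ℝ) (hm : 0 ≤ m) (t : ℕ)
    (τ : ℝ) (hτ : 0 < τ) :
    Ex (fun x => pn (t + 1) (dr P L z c s m (t + 1)) x)
      ≤ (1 + 1 / τ) * Ex (fun x => pn t (dr P L z c s m t) x)
        + (1 + τ) * (4 * (∑ j, s j ^ 2) * m) := by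
  classical
  have e1 : ∀ x, pn (t + 1) (dr P L z c s m (t + 1)) x
      = ∑ k, qn P t k (if dead P L z m t k then 0
          else fun h x => dr P L z c s m t h x
            - so L z x k • Cm L c s k (kp P L z m t h) x) x := by
    intro x
    rw [← pn_gs]
    refine pn_congr _ _ _ _ fun a ha => ?_
    cases a with
    | nil => simp at ha
    | cons w h => exact dr_cons P L z c s m t w h x
  have e2 : ∀ x, pn (t + 1) (dr P L z c s m (t + 1)) x
      ≤ (1 + 1 / τ) * pn t (dr P L z c s m t) x
        + (1 + τ) * ∑ k, (if dead P L z m t k then 0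
            else qn P t k (fun h x => Cm L c s k (kp P L z m t h) x) x) := by
    intro x
    rw [e1, ← sum_qn P, Finset.mul_sum, Finset.mul_sum, ← Finset.sum_add_distrib]
    refine Finset.sum_le_sum fun k _ => ?_
    split_ifs
    · rw [qn_zero, mul_zero, add_zero]
      have := qn_nonneg P t k (dr P L z c s m t) x
      positivity
    · refine (qn_sub_le' P τ hτ t k _ _ x).trans (le_of_eq ?_)
      rw [qn_smul P t k (fun x => so L z x k) (fun h x => Cm L c s k (kp P L z m t h) x) x, sq,
        so_sq, one_mul]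
  have hcs' : ∀ j i, Function.update c j 1 i ^ 2 + Function.update s j 0 i ^ 2 = 1 := by
    intro j i
    by_cases h : i = j
    · subst h; simp
    · rw [Function.update_of_ne h, Function.update_of_ne h]; exact hcs i
  have e3 : ∀ k, Ex (fun x => (if dead P L z m t k then 0
            else qn P t k (fun h x => Cm L c s k (kp P L z m t h) x) x))
      ≤ match k with
        | none => 0
        | some j => 4 * s j ^ 2 * m := by
    intro k
    cases k with
    | none =>
      refine Ex_le_const fun x => ?_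
      split_ifs
      · exact le_rfl
      · exact (qn_zero P t none x).le
    | some j =>
      have h0 : 0 ≤ 4 * s j ^ 2 * m := by positivity
      by_cases hd : dead P L z m t (some j)
      · simp only [hd, if_true]
        rw [Ex_const]
        exact h0
      · simp only [hd, if_false]
        by_cases hj : j ∈ L
        · refine (Ex_le_const (c := 0) fun x => ?_).trans h0
          have : (fun (h : List W) (x : κ → ℤˣ) => Cm L c s (some j) (kp P L z m t h) x)
              = (0 : List W → (κ → ℤˣ) → ι → ℝ) := by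
            funext h x
            simp only [Cm, if_pos hj]
            rfl
          rw [this]
          exact (qn_zero P t (some j) x).le
        · have e4 : (fun x => qn P t (some j) (fun h x => Cm L c s (some j) (kp P L z m t h) x) x)
              = fun x => (4 * s j ^ 2) * (fun y => qn P t (some j) (fun h x =>
                Wr (Function.update c j 1) (Function.update s j 0) (kp P L z m t h) x) y)
                  (fl j x) := by
            funext x
            simp only [Cm, if_neg hj]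
            rw [qn_smul P t (some j) (fun _ => -2 * s j)]
            ring_nf
            rfl
          rw [e4, Ex_mul_left, Ex_fl, Ex_qn_Wr P _ _ (hcs' j)]
          refine mul_le_mul_of_nonneg_left ?_ (by positivity)
          by_contra hlt
          exact hd ⟨by simp, not_le.1 hlt⟩
  refine (Ex_mono e2).trans ?_
  rw [Ex_add, Ex_mul_left, Ex_mul_left, Ex_sum]
  refine add_le_add le_rfl (mul_le_mul_of_nonneg_left ?_ (by positivity))
  refine (Finset.sum_le_sum fun k _ => e3 k).trans (le_of_eq ?_)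
  rw [Fintype.sum_option, zero_add, Finset.mul_sum, Finset.sum_mul]

lemma Ex_dr_le (c s : κ → ℝ) (hcs : ∀ j, c j ^ 2 + s j ^ 2 = 1) (m : ℝ) (hm : 0 ≤ m) (t : ℕ) :
    Ex (fun x => pn t (dr P L z c s m t) x)
      ≤ (t : ℝ) * (t + 1) * (4 * (∑ j, s j ^ 2) * m) := by
  induction t with
  | zero =>
    simp only [Nat.cast_zero, zero_mul]
    refine Ex_le_const fun x => ?_
    unfold pn
    simp only [S]
    have : dr P L z c s m 0 ([] : List W) x = 0 := by
      unfold dr
      have e : kp P L z m 0 ([] : List W) = fun _ => P.v := rfl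
      rw [e, Wr_const]
      unfold lb
      simp
    rw [this, nsq_zero]
  | succ t ih =>
    refine (dr_step P L z c s hcs m hm t ((t : ℝ) + 1) (by positivity)).trans ?_
    have h1 := mul_le_mul_of_nonneg_left ih (by positivity : 0 ≤ 1 + 1 / ((t : ℝ) + 1))
    set E := 4 * (∑ j, s j ^ 2) * m with hE
    have e : (1 + 1 / ((t : ℝ) + 1)) * ((t : ℝ) * (t + 1) * E) + (1 + ((t : ℝ) + 1)) * E
        = ((t + 1 : ℕ) : ℝ) * (((t + 1 : ℕ) : ℝ) + 1) * E := by
      push_cast
      field_simp
      ring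
    linarith

/-- The tilted density. -/
noncomputable def Lb (b : κ → ℝ) (x : κ → ℤˣ) : ℝ := ∏ j, (1 + b j * sg x j)

lemma lb_sq (c s b : κ → ℝ) (hcs : ∀ j, c j ^ 2 + s j ^ 2 = 1) (hb : ∀ j, 2 * c j * s j = b j)
    (x : κ → ℤˣ) : lb c s x ^ 2 = Lb b x := by
  unfold lb Lb
  rw [← Finset.prod_pow]
  refine Finset.prod_congr rfl fun j _ => ?_
  have h1 := sg_sq x j
  rw [← hb j, ← hcs j]
  linear_combination (s j ^ 2) * h1

/-- The robust lemma. -/
theorem robust (b : κ → ℝ) (hb : ∀ j, |b j| ≤ 1) (m : ℝ) (hm : 0 ≤ m) (t T : ℕ) (hT : t < T)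
    (k : Option κ) :
    Ex (fun x => Lb b x * qn P t k (kp P L z m t) x)
      ≤ 2 * Ex (fun x => qn P t k (kp P L z m t) x) + 4 * (T : ℝ) ^ 2 * m * ∑ j, b j ^ 2 := by
  choose c s hcs hbb hsb using fun j => exists_angle (b j) (hb j)
  have e1 : ∀ x, Lb b x * qn P t k (kp P L z m t) x
      ≤ 2 * qn P t k (fun h x => Wr c s (kp P L z m t h) x) x + 2 * pn t (dr P L z c s m t) x := by
    intro x
    rw [← lb_sq c s b hcs hbb, ← qn_smul P t k (lb c s) (kp P L z m t) x]
    have h1 := qn_add_le P t k (fun h x => Wr c s (kp P L z m t h) x) (dr P L z c s m t) x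
    have h2 := qn_le_pn P t k (dr P L z c s m t) x
    have h3 : qn P t k (fun h x => lb c s x • kp P L z m t h x) x
        = qn P t k (fun h x => Wr c s (kp P L z m t h) x + dr P L z c s m t h x) x := by
      refine qn_congr P t k _ _ x fun a _ => ?_
      unfold dr
      abel
    rw [h3]
    linarith
  refine (Ex_mono e1).trans ?_
  rw [Ex_add, Ex_mul_left, Ex_mul_left, Ex_qn_Wr P c s hcs]
  have h4 := Ex_dr_le P L z c s hcs m hm t
  have h5 : ∑ j, s j ^ 2 ≤ (∑ j, b j ^ 2) / 2 := by
    rw [Finset.sum_div]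
    exact Finset.sum_le_sum fun j _ => by have := hsb j; linarith
  have h6 : (t : ℝ) * (t + 1) ≤ (T : ℝ) ^ 2 := by
    have h7 : (t : ℝ) + 1 ≤ T := by exact_mod_cast hT
    have h8 : (0 : ℝ) ≤ t := by positivity
    nlinarith
  have h9 : 0 ≤ ∑ j, s j ^ 2 := Finset.sum_nonneg fun _ _ => sq_nonneg _
  have h10 : (t : ℝ) * (t + 1) * (4 * (∑ j, s j ^ 2) * m)
      ≤ (T : ℝ) ^ 2 * (4 * ((∑ j, b j ^ 2) / 2) * m) := by
    refine mul_le_mul h6 ?_ (by positivity) (by positivity)
    refine mul_le_mul_of_nonneg_right ?_ hm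
    linarith
  nlinarith

end Pool.Agent.H703R3.QP
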