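import Pool.Agent.H703R2.AC.Osss

/-!
# Product rotations of functions on the cube
-/

set_option autoImplicit false
set_option linter.unusedSectionVars false

namespace Pool.Agent.H703R3.QP

open Finset Pool.Agent.H722R2.AA Pool.Agent.H746R2.AA Pool.Agent.H703R2.AA Pool.Agent.H703R2.AA.Pr
  Pool.Agent.H703R2.AB Pool.Agent.H703R2.AC

variable {κ : Type*} [Fintype κ] [DecidableEq κ]

/-- Sums of products over the cube. -/
lemma sum_prod_cube (f : κ → ℤˣ → ℝ) : ∑ x : κ → ℤˣ, ∏ j, f j (x j) = ∏ j, (f j 1 + f j (-1)) := by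
  have h := Finset.prod_univ_sum (fun _ : κ => (Finset.univ : Finset ℤˣ)) f
  rw [Fintype.piFinset_univ] at h
  rw [← h]
  refine Finset.prod_congr rfl fun j _ => ?_
  rw [UnitsInt.univ, Finset.sum_pair (by decide)]

lemma Ex_prod_cube (f : κ → ℤˣ → ℝ) :
    Ex (fun x : κ → ℤˣ => ∏ j, f j (x j)) = ∏ j, ((f j 1 + f j (-1)) / 2) := by
  unfold Ex
  rw [sum_prod_cube, Finset.prod_div_distrib, Finset.prod_const, Finset.card_univ]

/-- The one coordinate kernel. -/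
noncomputable def kf (c s a b : ℝ) : ℝ := ((c + s * a) + (-s + c * a) * b) / 2

/-- The kernel of the product rotation. -/
noncomputable def Kr (c s : κ → ℝ) (x y : κ → ℤˣ) : ℝ := ∏ j, kf (c j) (s j) (sg x j) (sg y j)

lemma Kr_orth (c s : κ → ℝ) (hcs : ∀ j, c j ^ 2 + s j ^ 2 = 1) (y y' : κ → ℤˣ) :
    ∑ x, Kr c s x y * Kr c s x y' = if y = y' then 1 else 0 := by
  have e : ∀ x, Kr c s x y * Kr c s x y'
      = ∏ j, (fun (j : κ) (u : ℤˣ) => kf (c j) (s j) ((u : ℤ) : ℝ) (sg y j)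
          * kf (c j) (s j) ((u : ℤ) : ℝ) (sg y' j)) j (x j) := by
    intro x
    unfold Kr
    rw [← Finset.prod_mul_distrib]
    rfl
  rw [Finset.sum_congr rfl fun x _ => e x, sum_prod_cube (fun (j : κ) (u : ℤˣ) =>
    kf (c j) (s j) ((u : ℤ) : ℝ) (sg y j) * kf (c j) (s j) ((u : ℤ) : ℝ) (sg y' j))]
  have e2 : ∀ j, kf (c j) (s j) (((1 : ℤˣ) : ℤ) : ℝ) (sg y j) * kf (c j) (s j) (((1 : ℤˣ) : ℤ) : ℝ) (sg y' j)
      + kf (c j) (s j) (((-1 : ℤˣ) : ℤ) : ℝ) (sg y j) * kf (c j) (s j) (((-1 : ℤˣ) : ℤ) : ℝ) (sg y' j)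
      = (1 + sg y j * sg y' j) / 2 := by
    intro j
    unfold kf
    push_cast
    linear_combination ((1 + sg y j * sg y' j) / 2) * hcs j
  rw [Finset.prod_congr rfl fun j _ => e2 j]
  split_ifs with h
  · subst h
    refine Finset.prod_eq_one fun j _ => ?_
    rw [sg_sq]; norm_num
  · obtain ⟨k, hk⟩ := Function.ne_iff.1 h
    refine Finset.prod_eq_zero (Finset.mem_univ k) ?_
    have : sg y k * sg y' k = -1 := by
      unfold sg
      rcases Int.units_eq_one_or (y k) with h2 | h2 <;> rcases Int.units_eq_one_or (y' k) with h3 | h3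
      · exact absurd (h2.trans h3.symm) hk
      · rw [h2, h3]; norm_num
      · rw [h2, h3]; norm_num
      · exact absurd (h2.trans h3.symm) hk
    rw [this]; norm_num

/-- The rotation of a real function. -/
noncomputable def Wf (c s : κ → ℝ) (F : (κ → ℤˣ) → ℝ) (x : κ → ℤˣ) : ℝ := ∑ y, Kr c s x y * F y

lemma Ex_Wf_sq (c s : κ → ℝ) (hcs : ∀ j, c j ^ 2 + s j ^ 2 = 1) (F : (κ → ℤˣ) → ℝ) :
    Ex (fun x => Wf c s F x ^ 2) = Ex (fun x => F x ^ 2) := by
  unfold Ex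
  congr 1
  have e : ∀ x, Wf c s F x ^ 2 = ∑ y, ∑ y', F y * F y' * (Kr c s x y * Kr c s x y') := by
    intro x
    unfold Wf
    rw [sq, Finset.sum_mul_sum]
    refine Finset.sum_congr rfl fun y _ => Finset.sum_congr rfl fun y' _ => by ring
  simp_rw [e]
  rw [Finset.sum_comm]
  refine Finset.sum_congr rfl fun y _ => ?_
  rw [Finset.sum_comm]
  simp_rw [← Finset.mul_sum, Kr_orth c s hcs]
  simp [sq]

lemma Wf_one (c s : κ → ℝ) (x : κ → ℤˣ) :
    Wf c s (fun _ => 1) x = ∏ j, (c j + s j * sg x j) := by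
  unfold Wf
  simp_rw [mul_one]
  have e : ∀ y, Kr c s x y = ∏ j, (fun (j : κ) (u : ℤˣ) => kf (c j) (s j) (sg x j) ((u : ℤ) : ℝ)) j (y j) :=
    fun y => rfl
  rw [Finset.sum_congr rfl fun y _ => e y,
    sum_prod_cube (fun (j : κ) (u : ℤˣ) => kf (c j) (s j) (sg x j) ((u : ℤ) : ℝ))]
  refine Finset.prod_congr rfl fun j _ => ?_
  unfold kf
  push_cast
  ring

lemma Kr_comm (c s : κ → ℝ) (j : κ) (x y : κ → ℤˣ) :
    Kr c s x y * (sg y j - sg x j)
      = -2 * s j * Kr (Function.update c j 1) (Function.update s j 0) (fl j x) y := by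
  unfold Kr
  rw [← Finset.mul_prod_erase Finset.univ _ (Finset.mem_univ j),
    ← Finset.mul_prod_erase Finset.univ
      (fun i => kf (Function.update c j 1 i) (Function.update s j 0 i) (sg (fl j x) i) (sg y i))
      (Finset.mem_univ j)]
  have e : ∏ i ∈ Finset.univ.erase j,
      kf (Function.update c j 1 i) (Function.update s j 0 i) (sg (fl j x) i) (sg y i)
      = ∏ i ∈ Finset.univ.erase j, kf (c i) (s i) (sg x i) (sg y i) := by
    refine Finset.prod_congr rfl fun i hi => ?_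
    have hi' := Finset.ne_of_mem_erase hi
    rw [Function.update_of_ne hi', Function.update_of_ne hi', sg_fl_ne hi']
  rw [e, Function.update_self, Function.update_self, sg_fl_self]
  have h1 := sg_sq x j
  have h2 := sg_sq y j
  set C := ∏ i ∈ Finset.univ.erase j, kf (c i) (s i) (sg x i) (sg y i) with hC
  clear_value C
  unfold kf
  linear_combination (C * ((-s j + c j * sg x j) / 2)) * h2 -
    (C * ((s j + c j * sg y j) / 2)) * h1

lemma Wf_sg_mul (c s : κ → ℝ) (j : κ) (F : (κ → ℤˣ) → ℝ) (x : κ → ℤˣ) :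
    Wf c s (fun x => sg x j * F x) x
      = sg x j * Wf c s F x
        + -2 * s j * Wf (Function.update c j 1) (Function.update s j 0) F (fl j x) := by
  unfold Wf
  rw [Finset.mul_sum, Finset.mul_sum, ← Finset.sum_add_distrib]
  refine Finset.sum_congr rfl fun y _ => ?_
  have h := Kr_comm c s j x y
  linear_combination F y * h

lemma Wf_mul_left (c s : κ → ℝ) (a : ℝ) (F : (κ → ℤˣ) → ℝ) (x : κ → ℤˣ) :
    Wf c s (fun x => a * F x) x = a * Wf c s F x := by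
  unfold Wf
  rw [Finset.mul_sum]
  exact Finset.sum_congr rfl fun y _ => by ring

lemma Wf_sum (c s : κ → ℝ) {τ : Type*} (t : Finset τ) (F : τ → (κ → ℤˣ) → ℝ) (x : κ → ℤˣ) :
    Wf c s (fun x => ∑ a ∈ t, F a x) x = ∑ a ∈ t, Wf c s (F a) x := by
  unfold Wf
  simp_rw [Finset.mul_sum]
  rw [Finset.sum_comm]

section Vec

variable {ι : Type*} [Fintype ι]

/-- The rotation of a vector function. -/
noncomputable def Wr (c s : κ → ℝ) (u : (κ → ℤˣ) → ι → ℝ) (x : κ → ℤˣ) : ι → ℝ :=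
  fun i => Wf c s (fun y => u y i) x

lemma Ex_Wr (c s : κ → ℝ) (hcs : ∀ j, c j ^ 2 + s j ^ 2 = 1) (u : (κ → ℤˣ) → ι → ℝ) :
    Ex (fun x => nsq (Wr c s u x)) = Ex (fun x => nsq (u x)) := by
  unfold nsq Wr
  rw [Ex_sum, Ex_sum]
  exact Finset.sum_congr rfl fun i _ => Ex_Wf_sq c s hcs _

lemma Wr_mv (c s : κ → ℝ) (m : ι → ι → ℝ) (u : (κ → ℤˣ) → ι → ℝ) (x : κ → ℤˣ) :
    Wr c s (fun x => mv m (u x)) x = mv m (Wr c s u x) := by
  funext i
  unfold Wr mv
  rw [Wf_sum]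
  exact Finset.sum_congr rfl fun j _ => Wf_mul_left _ _ _ _ _

lemma Wr_const (c s : κ → ℝ) (v : ι → ℝ) (x : κ → ℤˣ) :
    Wr c s (fun _ => v) x = (∏ j, (c j + s j * sg x j)) • v := by
  funext i
  unfold Wr
  have := Wf_mul_left c s (v i) (fun _ => 1) x
  simp only [mul_one] at this
  rw [this, Wf_one, Pi.smul_apply, smul_eq_mul, mul_comm]

lemma Wr_sum (c s : κ → ℝ) {τ : Type*} (t : Finset τ) (u : τ → (κ → ℤˣ) → ι → ℝ) (x : κ → ℤˣ) :
    Wr c s (fun x => ∑ a ∈ t, u a x) x = ∑ a ∈ t, Wr c s (u a) x := by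
  funext i
  unfold Wr
  rw [Finset.sum_apply, ← Wf_sum]
  congr 1
  funext y
  simp only [Finset.sum_apply]

lemma Wr_sg_smul (c s : κ → ℝ) (j : κ) (u : (κ → ℤˣ) → ι → ℝ) (x : κ → ℤˣ) :
    Wr c s (fun x => sg x j • u x) x
      = sg x j • Wr c s u x
        + (-2 * s j) • Wr (Function.update c j 1) (Function.update s j 0) u (fl j x) := by
  funext i
  have := Wf_sg_mul c s j (fun y => u y i) x
  simpa [Wr] using this

lemma Wr_smul (c s : κ → ℝ) (a : ℝ) (u : (κ → ℤˣ) → ι → ℝ) (x : κ → ℤˣ) :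
    Wr c s (fun x => a • u x) x = a • Wr c s u x := by
  funext i
  have := Wf_mul_left c s a (fun y => u y i) x
  simpa [Wr] using this

end Vec

/-- Angles for a given bias. -/
lemma exists_angle (b : ℝ) (hb : |b| ≤ 1) :
    ∃ c s : ℝ, c ^ 2 + s ^ 2 = 1 ∧ 2 * c * s = b ∧ 2 * s ^ 2 ≤ b ^ 2 := by
  rw [abs_le] at hb
  set θ := Real.arcsin b / 2 with hθ
  have h1 : Real.sin (2 * θ) = b := by
    rw [hθ, mul_div_cancel₀ _ (by norm_num : (2 : ℝ) ≠ 0)]
    exact Real.sin_arcsin hb.1 hb.2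
  have h2 : 0 ≤ Real.cos (2 * θ) := by
    rw [hθ, mul_div_cancel₀ _ (by norm_num : (2 : ℝ) ≠ 0)]
    exact Real.cos_arcsin_nonneg b
  refine ⟨Real.cos θ, Real.sin θ, by rw [Real.cos_sq_add_sin_sq], ?_, ?_⟩
  · rw [← h1, Real.sin_two_mul]; ring
  · have h3 : b ^ 2 = 4 * Real.sin θ ^ 2 * Real.cos θ ^ 2 := by
      rw [← h1, Real.sin_two_mul]; ring
    have h4 : 1 / 2 ≤ Real.cos θ ^ 2 := by
      rw [Real.cos_two_mul] at h2
      linarith
    rw [h3]
    nlinarith [sq_nonneg (Real.sin θ)]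

end Pool.Agent.H703R3.QP
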