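import Pool.Agent.H703R3.QP.Entropy

/-!
# The total level one weight of the query probabilities
-/

set_option autoImplicit false
set_option linter.unusedSectionVars false

namespace Pool.Agent.H703R3.QP

open Finset Pool.Agent.H722R2.AA Pool.Agent.H746R2.AA Pool.Agent.H703R2.AA Pool.Agent.H703R2.AA.Pr
  Pool.Agent.H703R2.AB Pool.Agent.H703R2.AC

variable {κ ι W : Type*} [Fintype κ] [DecidableEq κ] [Fintype ι] [DecidableEq ι] [Fintype W]
variable (P : Pr κ ι W) (L : Finset κ) (z : κ → ℤˣ)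

/-- The collision mass. -/
noncomputable def Ym (T : ℕ) : ℝ := ∑ t ∈ Finset.range T, ∑ k, pq P L z t k ^ 2

lemma Ym_nonneg (T : ℕ) : 0 ≤ Ym P L z T :=
  Finset.sum_nonneg fun _ _ => Finset.sum_nonneg fun _ _ => sq_nonneg _

lemma Ym_mono (s T : ℕ) (h : s ≤ T) : Ym P L z s ≤ Ym P L z T :=
  Finset.sum_le_sum_of_subset_of_nonneg (Finset.range_mono h)
    fun _ _ _ => Finset.sum_nonneg fun _ _ => sq_nonneg _

lemma pq_le_one (t : ℕ) (k : κ) : pq P L z t k ≤ 1 := Ex_le_const fun x => qf_le_one P L z t k x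

lemma sum_pq_le (t : ℕ) : ∑ k, pq P L z t k ≤ 1 := by
  unfold pq
  rw [← Ex_sum]
  refine Ex_le_const fun x => ?_
  rw [← pn_ps P L z t x, ← sum_qn P, Fintype.sum_option]
  have := qn_nonneg P t none (ps P L z) x
  linarith

/-- The weighted defect mass over the levels. -/
noncomputable def Zt (Θ : ℝ) (N t : ℕ) (k : κ) : ℝ :=
  ∑ i ∈ Finset.range (N + 1), (1 / 2 : ℝ) ^ i * be P L z (Θ * (1 / 2) ^ i) t k

lemma sum_Zt_le (Θ : ℝ) (hΘ : 0 < Θ) (N t T : ℕ) (ht : t ≤ T) :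
    ∑ k, Zt P L z Θ N t k ≤ 4 * (N + 1) / Θ * Ym P L z T := by
  unfold Zt
  rw [Finset.sum_comm]
  have h1 : ∀ i ∈ Finset.range (N + 1), ∑ k, (1 / 2 : ℝ) ^ i * be P L z (Θ * (1 / 2) ^ i) t k
      ≤ 4 / Θ * Ym P L z T := by
    intro i _
    rw [← Finset.mul_sum]
    have hm : 0 < Θ * (1 / 2 : ℝ) ^ i := by positivity
    have h2 := sum_Ex_qn_ch P L z (Θ * (1 / 2) ^ i) hm t
    have h3 : ∑ s ∈ Finset.range t, ∑ k, pq P L z s k ^ 2 ≤ Ym P L z T := Ym_mono P L z t T ht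
    have h4 : ∑ k, be P L z (Θ * (1 / 2) ^ i) t k ≤ 4 / (Θ * (1 / 2 : ℝ) ^ i) * Ym P L z T :=
      h2.trans (mul_le_mul_of_nonneg_left h3 (by positivity))
    have h5 := mul_le_mul_of_nonneg_left h4 (by positivity : 0 ≤ (1 / 2 : ℝ) ^ i)
    refine h5.trans (le_of_eq ?_)
    field_simp
  refine (Finset.sum_le_sum h1).trans (le_of_eq ?_)
  rw [Finset.sum_const, Finset.card_range, nsmul_eq_mul]
  push_cast
  ring

lemma Zt_nonneg (Θ : ℝ) (N t : ℕ) (k : κ) : 0 ≤ Zt P L z Θ N t k :=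
  Finset.sum_nonneg fun _ _ => mul_nonneg (by positivity) (be_nonneg P L z _ t k)

lemma G1_zero_of (F : (κ → ℤˣ) → ℝ) (h0 : ∀ x, 0 ≤ F x) (hp : Ex F = 0) (j : κ) : G1 F j = 0 := by
  have := abs_G1_le F h0 j
  rw [hp] at this
  exact abs_eq_zero.1 (le_antisymm this (abs_nonneg _))

/-- The bound for one position. -/
lemma point_bound (N : ℕ) (hN : 1 ≤ N) (t T : ℕ) (hT : t < T) (Θ A : ℝ) (hΘ : 0 < Θ) (hA : 4 ≤ A)
    (hΘA : 16 * (T : ℝ) ^ 2 * Θ ≤ A) (k : κ) :
    ∑ j, G1 (qf P L z t k) j ^ 2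
      ≤ 160 * (Real.log A + 1) * pq P L z t k ^ 2
        + 40 * (3 * N + 5 + 4 * Real.log A) * Zt P L z Θ N t k
        + (640 + 23 * ((N : ℝ) + 1)) / 2 ^ N * pq P L z t k := by
  set p := pq P L z t k with hp
  have hp0 : 0 ≤ p := pq_nonneg P L z t k
  have hp1 : p ≤ 1 := pq_le_one P L z t k
  have hF0 : ∀ x, 0 ≤ qf P L z t k x := qf_nonneg P L z t k
  have hF1 : ∀ x, qf P L z t k x ≤ 1 := qf_le_one P L z t k
  have hEF : Ex (qf P L z t k) = p := rfl
  have hlogA : 0 ≤ Real.log A := Real.log_nonneg (by linarith)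
  have hZ0 := Zt_nonneg P L z Θ N t k
  have hN1 : (1 : ℝ) ≤ N := by exact_mod_cast hN
  have h2N : (0 : ℝ) < 2 ^ N := by positivity
  have hlog2N : Real.log ((2 : ℝ) ^ N) ≤ N := by
    rw [Real.log_pow]
    have : Real.log 2 ≤ 1 := by
      have := Real.log_two_lt_d9
      linarith
    have h0 : (0 : ℝ) ≤ N := by positivity
    nlinarith
  have hT1 : 0 ≤ 160 * (Real.log A + 1) * p ^ 2 := by positivity
  have hT2 : 0 ≤ 40 * (3 * N + 5 + 4 * Real.log A) * Zt P L z Θ N t k := by positivity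
  rcases hp0.eq_or_lt with h0 | hpos
  · have : ∀ j, G1 (qf P L z t k) j ^ 2 = 0 := fun j => by
      rw [G1_zero_of _ hF0 (by rw [hEF]; exact h0.symm) j]; norm_num
    rw [Finset.sum_eq_zero fun j _ => this j]
    positivity
  set δ : ℝ := 1 / 2 ^ N with hδ
  have hδ0 : 0 < δ := by positivity
  rcases lt_or_ge p δ with hlt | hge
  · -- small probabilities
    have h1 := triv_bound (qf P L z t k) hF0 hF1 (by rw [hEF]; exact hpos) (2 ^ N) h2N
    rw [hEF] at h1
    rw [sum_G1_sq _ (by rw [hEF]; exact hpos), hEF]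
    set B := ∑ j, tb (qf P L z t k) j ^ 2 with hB
    have h2 : p * Real.log (2 ^ N) ≤ δ * N :=
      mul_le_mul hlt.le hlog2N (Real.log_nonneg (one_le_pow₀ (by norm_num))) hδ0.le
    have h3 : 18 * p * B ≤ δ * (N + 1) := by
      have : 1 / (2 : ℝ) ^ N = δ := rfl
      rw [this] at h1
      linarith
    have h4 := mul_le_mul_of_nonneg_left h3 hp0
    have h5 : (640 + 23 * ((N : ℝ) + 1)) / 2 ^ N * p = (640 + 23 * ((N : ℝ) + 1)) * (δ * p) := by
      rw [hδ]; ring
    rw [h5]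
    have h6 : 0 ≤ δ * p := by positivity
    nlinarith
  · -- the main case
    obtain ⟨i, hi1, hi2⟩ := exists_nat_pow_near_of_lt_one hpos hp1 (by norm_num : (0 : ℝ) < 1 / 2)
      (by norm_num)
    have hiN : i < N + 1 := by
      by_contra hcon
      push Not at hcon
      have h1 : (1 / 2 : ℝ) ^ i ≤ (1 / 2) ^ (N + 1) :=
        pow_le_pow_of_le_one (by norm_num) (by norm_num) hcon
      have h2 : (1 / 2 : ℝ) ^ (N + 1) = δ / 2 := by
        rw [hδ, pow_succ, one_div_pow]; ring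
      linarith
    have h2 : (1 / 2 : ℝ) ^ i ≤ 2 * p := by
      rw [pow_succ] at hi1
      linarith
    set m := Θ * (1 / 2 : ℝ) ^ i with hm
    have hm0 : 0 < m := by positivity
    have hmA : 8 * (T : ℝ) ^ 2 * m ≤ A * p := by
      have h3 : m ≤ Θ * (2 * p) := mul_le_mul_of_nonneg_left h2 hΘ.le
      have h4 := mul_le_mul_of_nonneg_left h3 (by positivity : 0 ≤ 8 * (T : ℝ) ^ 2)
      have h5 := mul_le_mul_of_nonneg_right hΘA hp0
      linarith
    have hΛ : 18 * ∑ j, tb (qf P L z t k) j ^ 2 ≤ (N : ℝ) + 1 := by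
      have h1 := triv_bound (qf P L z t k) hF0 hF1 (by rw [hEF]; exact hpos) (2 ^ N) h2N
      rw [hEF] at h1
      have h3 : 1 / (2 : ℝ) ^ N ≤ p := hge
      have h4 : p * Real.log (2 ^ N) ≤ p * N := mul_le_mul_of_nonneg_left hlog2N hp0
      have h5 : p * (18 * ∑ j, tb (qf P L z t k) j ^ 2) ≤ p * ((N : ℝ) + 1) := by linarith
      exact le_of_mul_le_mul_left h5 hpos
    have h6 := level_one P L z m hm0.le t T hT k hpos A (2 ^ N) ((N : ℝ) + 1) hA h2N hmA hΛ
    rw [← hp] at h6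
    refine h6.trans ?_
    have hβ0 := be_nonneg P L z m t k
    have h7 : p * be P L z m t k ≤ Zt P L z Θ N t k := by
      refine (mul_le_mul_of_nonneg_right hi2 hβ0).trans ?_
      unfold Zt
      exact Finset.single_le_sum
        (f := fun i => (1 / 2 : ℝ) ^ i * be P L z (Θ * (1 / 2) ^ i) t k)
        (fun i _ => mul_nonneg (by positivity) (be_nonneg P L z _ t k)) (Finset.mem_range.2 hiN)
    have h8 : (N : ℝ) + 1 + 4 * (Real.log A + 1) + 2 * Real.log (2 ^ N)
        ≤ 3 * N + 5 + 4 * Real.log A := by linarith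
    have h9 : 40 * (p * be P L z m t k)
          * ((N : ℝ) + 1 + 4 * (Real.log A + 1) + 2 * Real.log (2 ^ N))
        ≤ 40 * (3 * N + 5 + 4 * Real.log A) * Zt P L z Θ N t k := by
      calc _ ≤ 40 * (p * be P L z m t k) * (3 * N + 5 + 4 * Real.log A) :=
            mul_le_mul_of_nonneg_left h8 (by positivity)
        _ ≤ 40 * Zt P L z Θ N t k * (3 * N + 5 + 4 * Real.log A) :=
            mul_le_mul_of_nonneg_right (mul_le_mul_of_nonneg_left h7 (by norm_num)) (by positivity)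
        _ = _ := by ring
    have h10 : 640 * p / 2 ^ N ≤ (640 + 23 * ((N : ℝ) + 1)) / 2 ^ N * p := by
      rw [div_mul_eq_mul_div]
      refine div_le_div_of_nonneg_right ?_ h2N.le
      nlinarith
    have h11 : 160 * p ^ 2 * (Real.log A + 1) = 160 * (Real.log A + 1) * p ^ 2 := by ring
    linarith

/-- The total bound with parameters. -/
lemma total_bound (N : ℕ) (hN : 1 ≤ N) (T : ℕ) (Θ A : ℝ) (hΘ : 0 < Θ) (hA : 4 ≤ A)
    (hΘA : 16 * (T : ℝ) ^ 2 * Θ ≤ A) :
    ∑ t ∈ Finset.range T, ∑ k, ∑ j, G1 (qf P L z t k) j ^ 2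
      ≤ (160 * (Real.log A + 1) + 160 * (3 * N + 5 + 4 * Real.log A) * T * (N + 1) / Θ)
          * Ym P L z T
        + (640 + 23 * ((N : ℝ) + 1)) / 2 ^ N * T := by
  have hlogA : 0 ≤ Real.log A := Real.log_nonneg (by linarith)
  have h1 : ∀ t ∈ Finset.range T, ∑ k, ∑ j, G1 (qf P L z t k) j ^ 2
      ≤ 160 * (Real.log A + 1) * (∑ k, pq P L z t k ^ 2)
        + 40 * (3 * N + 5 + 4 * Real.log A) * (4 * (N + 1) / Θ * Ym P L z T)
        + (640 + 23 * ((N : ℝ) + 1)) / 2 ^ N := by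
    intro t ht
    rw [Finset.mem_range] at ht
    refine (Finset.sum_le_sum fun k _ => point_bound P L z N hN t T ht Θ A hΘ hA hΘA k).trans ?_
    rw [Finset.sum_add_distrib, Finset.sum_add_distrib, ← Finset.mul_sum, ← Finset.mul_sum,
      ← Finset.mul_sum]
    have h2 := sum_Zt_le P L z Θ hΘ N t T ht.le
    have h3 := sum_pq_le P L z t
    have h4 : (640 + 23 * ((N : ℝ) + 1)) / 2 ^ N * ∑ k, pq P L z t k
        ≤ (640 + 23 * ((N : ℝ) + 1)) / 2 ^ N * 1 :=
      mul_le_mul_of_nonneg_left h3 (by positivity)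
    have h5 := mul_le_mul_of_nonneg_left h2
      (by positivity : 0 ≤ 40 * (3 * (N : ℝ) + 5 + 4 * Real.log A))
    linarith
  refine (Finset.sum_le_sum h1).trans (le_of_eq ?_)
  rw [Finset.sum_add_distrib, Finset.sum_add_distrib, ← Finset.mul_sum, Finset.sum_const,
    Finset.sum_const, Finset.card_range, nsmul_eq_mul, nsmul_eq_mul]
  unfold Ym
  field_simp
  ring

/-- The static inequality. -/
theorem static_bound (N : ℕ) (hN : 1 ≤ N) (T : ℕ) (hT : 1 ≤ T) :
    ∑ t ∈ Finset.range T, ∑ k, ∑ j, G1 (qf P L z t k) j ^ 2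
      ≤ (640 * Real.log (50 * T * N) + 161) * Ym P L z T + 700 * N / 2 ^ N * T := by
  have hN1 : (1 : ℝ) ≤ N := by exact_mod_cast hN
  have hT1 : (1 : ℝ) ≤ T := by exact_mod_cast hT
  set Z : ℝ := 50 * T * N with hZ
  have hTN : (1 : ℝ) ≤ T * N := one_le_mul_of_one_le_of_one_le hT1 hN1
  have hZ50 : 50 ≤ Z := by rw [hZ]; linarith
  have hZ0 : 0 < Z := by linarith
  have hNZ : (N : ℝ) ≤ Z := by rw [hZ]; nlinarith
  set A : ℝ := Z ^ 4 with hA
  have hA4 : 4 ≤ A := by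
    have : (50 : ℝ) ^ 4 ≤ Z ^ 4 := pow_le_pow_left₀ (by norm_num) hZ50 4
    linarith
  have hlogA : Real.log A = 4 * Real.log Z := by
    rw [hA, Real.log_pow]; norm_num
  have hlogZ : Real.log Z ≤ Z := (Real.log_le_sub_one_of_pos hZ0).trans (by linarith)
  have hT2 : 0 < 16 * (T : ℝ) ^ 2 := by positivity
  have hY := Ym_nonneg P L z T
  have h := total_bound P L z N hN T (A / (16 * (T : ℝ) ^ 2)) A (by positivity) hA4
    (by rw [mul_div_cancel₀ _ hT2.ne'])
  refine h.trans ?_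
  have h1 : 160 * (3 * N + 5 + 4 * Real.log A) * T * (N + 1) / (A / (16 * (T : ℝ) ^ 2)) ≤ 1 := by
    rw [div_le_one (by positivity), le_div_iff₀ hT2]
    have h2 : 3 * (N : ℝ) + 5 + 4 * Real.log A ≤ 24 * Z := by
      rw [hlogA]; linarith
    have h3 : (N : ℝ) + 1 ≤ 2 * N := by linarith
    calc 160 * (3 * N + 5 + 4 * Real.log A) * T * (N + 1) * (16 * (T : ℝ) ^ 2)
        ≤ 160 * (24 * Z) * T * (2 * N) * (16 * (T : ℝ) ^ 2) := by
          refine mul_le_mul_of_nonneg_right ?_ (by positivity)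
          refine mul_le_mul ?_ h3 (by positivity) (by positivity)
          refine mul_le_mul_of_nonneg_right ?_ (by positivity)
          linarith
      _ = 122880 * ((T : ℝ) ^ 3 * N) * Z := by ring
      _ ≤ 125000 * ((T : ℝ) ^ 3 * N ^ 3) * Z := by
          refine mul_le_mul_of_nonneg_right ?_ hZ0.le
          have h4 : (N : ℝ) ≤ N ^ 3 := by
            have := pow_le_pow_right₀ hN1 (show 1 ≤ 3 by norm_num)
            simpa using this
          have h5 := mul_le_mul_of_nonneg_left h4 (by positivity : 0 ≤ (T : ℝ) ^ 3)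
          have h6 : 0 ≤ (T : ℝ) ^ 3 * N := by positivity
          linarith
      _ = A := by rw [hA, hZ]; ring
  have h2 : (160 * (Real.log A + 1)
      + 160 * (3 * N + 5 + 4 * Real.log A) * T * (N + 1) / (A / (16 * (T : ℝ) ^ 2)))
      ≤ 640 * Real.log Z + 161 := by
    have e : 160 * (Real.log A + 1) = 640 * Real.log Z + 160 := by rw [hlogA]; ring
    linarith
  have h3 : (640 + 23 * ((N : ℝ) + 1)) / 2 ^ N * T ≤ 700 * N / 2 ^ N * T := by
    refine mul_le_mul_of_nonneg_right (div_le_div_of_nonneg_right ?_ (by positivity)) (by positivity)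
    linarith
  exact add_le_add (mul_le_mul_of_nonneg_right h2 hY) h3

end Pool.Agent.H703R3.QP
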